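import Mathlib

set_option autoImplicit false

open Set MeasureTheory Filter Topology Module
open scoped ContDiff NNReal ENNReal

namespace Pool.Agent.Helper1.Sard

/-- Inverse function theorem with smoothness of the inverse on the whole target. -/
lemma chart {E F : Type} [NormedAddCommGroup E] [NormedSpace ℝ E] [CompleteSpace E]
    [NormedAddCommGroup F] [NormedSpace ℝ F]
    (Φ : E → F) (hΦ : ContDiff ℝ ∞ Φ) (x0 : E) (e0 : E ≃L[ℝ] F)
    (h : HasFDerivAt Φ (e0 : E →L[ℝ] F) x0) :
    ∃ e : OpenPartialHomeomorph E F, x0 ∈ e.source ∧ (∀ x, e x = Φ x) ∧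
      (∀ y ∈ e.target, ContDiffAt ℝ ∞ e.symm y) ∧
      ∀ x ∈ e.source, ∃ e' : E ≃L[ℝ] F, HasFDerivAt Φ (e' : E →L[ℝ] F) x := by
  set e1 := hΦ.contDiffAt.toOpenPartialHomeomorph Φ h (by simp) with he1
  have hcont : Continuous (fderiv ℝ Φ) := hΦ.continuous_fderiv (by simp)
  set S : Set E := (fderiv ℝ Φ) ⁻¹' (range ((↑) : (E ≃L[ℝ] F) → E →L[ℝ] F)) with hS
  have hSo : IsOpen S := ContinuousLinearEquiv.isOpen.preimage hcont
  refine ⟨e1.restrOpen S hSo, ?_, ?_, ?_, ?_⟩
  · rw [OpenPartialHomeomorph.restrOpen_source]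
    refine ⟨ContDiffAt.mem_toOpenPartialHomeomorph_source _ _ _, ?_⟩
    exact ⟨e0, h.fderiv.symm⟩
  · intro x
    rfl
  · intro y hy
    have hx : (e1.restrOpen S hSo).symm y ∈ (e1.restrOpen S hSo).source :=
      (e1.restrOpen S hSo).map_target hy
    rw [OpenPartialHomeomorph.restrOpen_source] at hx
    obtain ⟨e', he'⟩ := hx.2
    apply (e1.restrOpen S hSo).contDiffAt_symm hy (f₀' := e') _ hΦ.contDiffAt
    rw [he']
    exact ((hΦ.differentiable (by simp)) _).hasFDerivAt
  · intro x hx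
    rw [OpenPartialHomeomorph.restrOpen_source] at hx
    obtain ⟨e', he'⟩ := hx.2
    refine ⟨e', ?_⟩
    rw [he']
    exact ((hΦ.differentiable (by simp)) _).hasFDerivAt

/-- One step of the induction in the Morse-Sard theorem, near a point where `w` has nonzero
derivative. -/
lemma local_step {E : Type} [NormedAddCommGroup E] [NormedSpace ℝ E] [FiniteDimensional ℝ E]
    (N : ℕ) (hN : finrank ℝ E = N + 1)
    (IH : ∀ (K : Type) [NormedAddCommGroup K] [NormedSpace ℝ K] [FiniteDimensional ℝ K]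
      (g : K → ℝ), ContDiff ℝ ∞ g → finrank ℝ K = N →
        volume (g '' {x | fderiv ℝ g x = 0}) = 0)
    (f w : E → ℝ) (hf : ContDiff ℝ ∞ f) (hw : ContDiff ℝ ∞ w) (x0 : E) (hx0 : w x0 = 0)
    (hd : fderiv ℝ w x0 ≠ 0) :
    ∃ U ∈ 𝓝 x0, volume (f '' (U ∩ {x | w x = 0 ∧ fderiv ℝ f x = 0})) = 0 := by
  have : CompleteSpace E := FiniteDimensional.complete ℝ E
  set l : E →L[ℝ] ℝ := fderiv ℝ w x0 with hl
  obtain ⟨u0, hu0⟩ : ∃ u, l u ≠ 0 := by
    by_contra hcon
    push Not at hcon
    exact hd (ContinuousLinearMap.ext hcon)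
  set u : E := (l u0)⁻¹ • u0 with hu
  have hlu : l u = 1 := by
    rw [hu, map_smul, smul_eq_mul, inv_mul_cancel₀ hu0]
  set Φ : E → E := fun x => x + (w x - l (x - x0)) • u with hΦd
  have hΦ : ContDiff ℝ ∞ Φ := by
    apply contDiff_id.add
    apply ContDiff.smul _ contDiff_const
    apply hw.sub
    exact l.contDiff.comp (contDiff_id.sub contDiff_const)
  have hΦ' : HasFDerivAt Φ ((ContinuousLinearEquiv.refl ℝ E : E ≃L[ℝ] E) : E →L[ℝ] E) x0 := by
    have h1 : HasFDerivAt w l x0 := ((hw.differentiable (by simp)) x0).hasFDerivAt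
    have h2 : HasFDerivAt (fun x => l (x - x0)) l x0 :=
      l.hasFDerivAt.comp x0 ((hasFDerivAt_id x0).sub_const x0)
    have h3 : HasFDerivAt Φ (ContinuousLinearMap.id ℝ E + (l - l).smulRight u) x0 :=
      (hasFDerivAt_id (𝕜 := ℝ) x0).add ((h1.sub h2).smul_const u)
    refine h3.congr_fderiv ?_
    ext v
    simp
  obtain ⟨e, hes, heΦ, hesymm, -⟩ := chart Φ hΦ x0 _ hΦ'
  have hΦx0 : Φ x0 = x0 := by simp [hΦd, hx0]
  have ht0 : x0 ∈ e.target := by
    have := e.map_source hes
    rwa [heΦ, hΦx0] at this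
  -- a ball inside the target
  obtain ⟨R, hR, hRt⟩ := Metric.isOpen_iff.1 e.open_target x0 ht0
  set b : ContDiffBump x0 := ⟨R / 4, R / 2, by linarith, by linarith⟩ with hb
  have hsupp : tsupport b ⊆ e.target := by
    rw [b.tsupport_eq]
    refine subset_trans ?_ hRt
    apply Metric.closedBall_subset_ball
    change R / 2 < R
    linarith
  set K : Submodule ℝ E := LinearMap.ker (l : E →ₗ[ℝ] ℝ) with hK
  have hKrank : finrank ℝ K = N := by
    have h0 : (l : E →ₗ[ℝ] ℝ) ≠ 0 := by
      intro h0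
      apply hu0
      have := congrArg (fun g : E →ₗ[ℝ] ℝ => g u0) h0
      simpa using this
    have h1 : finrank ℝ K + 1 = finrank ℝ E :=
      Module.Dual.finrank_ker_add_one_of_ne_zero (f := (l : E →ₗ[ℝ] ℝ)) h0
    omega
  set g : K → ℝ := fun z => b (x0 + (z : E)) * f (e.symm (x0 + (z : E))) with hg
  have hι : ContDiff ℝ ∞ (fun z : K => x0 + (z : E)) :=
    contDiff_const.add K.subtypeL.contDiff
  have hgs : ContDiff ℝ ∞ g := by
    rw [contDiff_iff_contDiffAt]
    intro z
    by_cases hz : x0 + (z : E) ∈ e.target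
    · apply ContDiffAt.mul
      · exact (b.contDiff.contDiffAt).comp z hι.contDiffAt
      · apply ContDiffAt.comp z _ _
        · exact hf.contDiffAt
        · exact (hesymm _ hz).comp z hι.contDiffAt
    · have hz' : x0 + (z : E) ∉ tsupport b := fun h => hz (hsupp h)
      have hopen : (tsupport b)ᶜ ∈ 𝓝 (x0 + (z : E)) :=
        (isClosed_tsupport _).isOpen_compl.mem_nhds hz'
      have hev : g =ᶠ[𝓝 z] fun _ => 0 := by
        filter_upwards [hι.continuous.continuousAt.preimage_mem_nhds hopen] with y hy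
        have : b (x0 + (y : E)) = 0 := image_eq_zero_of_notMem_tsupport hy
        simp [hg, this]
      exact contDiffAt_const.congr_of_eventuallyEq hev
  have hnull := IH K g hgs hKrank
  -- the neighbourhood
  have hUn : e.source ∩ Φ ⁻¹' (Metric.ball x0 (R / 4)) ∈ 𝓝 x0 := by
    apply inter_mem (e.open_source.mem_nhds hes)
    apply hΦ.continuous.continuousAt.preimage_mem_nhds
    rw [hΦx0]
    exact Metric.ball_mem_nhds _ (by linarith)
  refine ⟨_, hUn, measure_mono_null ?_ hnull⟩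
  rintro _ ⟨x, ⟨⟨hxs, hxb⟩, hwx, hfx⟩, rfl⟩
  have hlx : l (Φ x - x0) = 0 := by
    simp only [hΦd, hwx, zero_sub]
    have : x + -l (x - x0) • u - x0 = (x - x0) - l (x - x0) • u := by
      rw [neg_smul]; abel
    rw [this, map_sub, map_smul, hlu]
    simp
  have hxx : e.symm (Φ x) = x := by
    rw [← heΦ]
    exact e.left_inv hxs
  have hadd : x0 + (Φ x - x0) = Φ x := by abel
  set z : K := ⟨Φ x - x0, by simpa [hK] using hlx⟩ with hz
  have hzx : x0 + (z : E) = Φ x := hadd
  refine ⟨z, ?_, ?_⟩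
  · have hball : Metric.ball x0 (R / 4) ∈ 𝓝 (x0 + (z : E)) := by
      rw [hzx]
      exact Metric.isOpen_ball.mem_nhds hxb
    have hev : g =ᶠ[𝓝 z] fun y => f (e.symm (x0 + (y : E))) := by
      filter_upwards [hι.continuous.continuousAt.preimage_mem_nhds hball] with y hy
      have : b (x0 + (y : E)) = 1 := b.one_of_mem_closedBall (Metric.ball_subset_closedBall hy)
      simp [hg, this]
    have htz : x0 + (z : E) ∈ e.target := by
      rw [hzx, ← heΦ]
      exact e.map_source hxs
    have hd1 : DifferentiableAt ℝ (fun y : K => e.symm (x0 + (y : E))) z :=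
      ((hesymm _ htz).comp z hι.contDiffAt).differentiableAt (by simp)
    have hd2 : HasFDerivAt f (0 : E →L[ℝ] ℝ) (e.symm (x0 + (z : E))) := by
      rw [hzx, hxx, ← hfx]
      exact ((hf.differentiable (by simp)) x).hasFDerivAt
    have hd3 := hd2.comp z hd1.hasFDerivAt
    rw [Set.mem_ofPred_eq, hev.fderiv_eq]
    have := hd3.fderiv
    rw [ContinuousLinearMap.zero_comp] at this
    exact this
  · have : b (x0 + (z : E)) = 1 := by
      rw [hzx]
      exact b.one_of_mem_closedBall (Metric.ball_subset_closedBall hxb)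
    change b (x0 + (z : E)) * f (e.symm (x0 + (z : E))) = f x
    rw [this, hzx, hxx, one_mul]

end Pool.Agent.Helper1.Sard
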