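import Mathlib
import Pool.Agent.Helper1.Sard.Chart

set_option autoImplicit false

open Set MeasureTheory Filter Topology Module
open scoped ContDiff NNReal ENNReal

namespace Pool.Agent.Helper1.Sard

/-- Taylor bound at a point where the derivatives of orders `1, …, k` vanish. -/
lemma taylor_bound {E : Type} [NormedAddCommGroup E] [NormedSpace ℝ E] (k : ℕ) :
    ∀ {F : Type} [NormedAddCommGroup F] [NormedSpace ℝ F] (f : E → F) (_ : ContDiff ℝ ∞ f)
      (S : Set E) (_ : Convex ℝ S) (M : ℝ) (_ : 0 ≤ M)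
      (_ : ∀ z ∈ S, ‖iteratedFDeriv ℝ (k + 1) f z‖ ≤ M) (x : E) (_ : x ∈ S)
      (_ : ∀ j, 1 ≤ j → j ≤ k → iteratedFDeriv ℝ j f x = 0) (y : E) (_ : y ∈ S),
      ‖f y - f x‖ ≤ M * ‖y - x‖ ^ (k + 1) := by
  induction k with
  | zero =>
    intro F _ _ f hf S hS M hM hb x hx h0 y hy
    rw [zero_add, pow_one]
    apply hS.norm_image_sub_le_of_norm_fderiv_le (𝕜 := ℝ) (f := f) _ _ hx hy
    · intro z _; exact (hf.differentiable (by simp)) z
    · intro z hz
      have := hb z hz
      rwa [zero_add, norm_iteratedFDeriv_one] at this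
  | succ k ih =>
    intro F _ _ f hf S hS M hM hb x hx h0 y hy
    have hg : ContDiff ℝ ∞ (fderiv ℝ f) := hf.fderiv_right (by simp)
    have h1 : ∀ z ∈ S, ‖fderiv ℝ f z - fderiv ℝ f x‖ ≤ M * ‖z - x‖ ^ (k + 1) := by
      intro z hz
      apply ih (fderiv ℝ f) hg S hS M hM _ x hx _ z hz
      · intro w hw
        rw [norm_iteratedFDeriv_fderiv]
        exact hb w hw
      · intro j hj1 hj2
        rw [← norm_eq_zero, norm_iteratedFDeriv_fderiv, norm_eq_zero]
        exact h0 (j + 1) (by omega) (by omega)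
    have h2 : fderiv ℝ f x = 0 := by
      have := h0 1 le_rfl (by omega)
      rw [← norm_eq_zero, norm_iteratedFDeriv_one] at this
      exact norm_eq_zero.1 this
    rw [h2] at h1
    simp only [sub_zero] at h1
    have hseg : segment ℝ x y ⊆ S := hS.segment_subset hx hy
    have h3 : ‖f y - f x‖ ≤ (M * ‖y - x‖ ^ (k + 1)) * ‖y - x‖ := by
      apply (convex_segment x y).norm_image_sub_le_of_norm_fderiv_le (𝕜 := ℝ) (f := f) _ _
        (left_mem_segment ℝ x y) (right_mem_segment ℝ x y)
      · intro z _; exact (hf.differentiable (by simp)) z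
      · intro z hz
        refine (h1 z (hseg hz)).trans ?_
        apply mul_le_mul_of_nonneg_left _ hM
        apply pow_le_pow_left₀ (norm_nonneg _)
        rw [segment_eq_image_lineMap] at hz
        obtain ⟨t, ht, rfl⟩ := hz
        rw [AffineMap.lineMap_apply_module']
        have : t • (y - x) + x - x = t • (y - x) := by abel
        rw [this, norm_smul, Real.norm_of_nonneg ht.1]
        have := mul_le_mul_of_nonneg_right ht.2 (norm_nonneg (y - x))
        linarith
    calc ‖f y - f x‖ ≤ (M * ‖y - x‖ ^ (k + 1)) * ‖y - x‖ := h3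
      _ = M * ‖y - x‖ ^ (k + 1 + 1) := by ring

/-- points where the derivatives of orders `1, …, k` vanish -/
def CC {E : Type} [NormedAddCommGroup E] [NormedSpace ℝ E] (f : E → ℝ) (k : ℕ) : Set E :=
  {x | ∀ j, 1 ≤ j → j ≤ k → iteratedFDeriv ℝ j f x = 0}

lemma flat_null {E : Type} [NormedAddCommGroup E] [NormedSpace ℝ E] [FiniteDimensional ℝ E]
    (f : E → ℝ) (hf : ContDiff ℝ ∞ f) (k : ℕ) (hk : finrank ℝ E < k + 1) :
    volume (f '' CC f k) = 0 := by
  borelize E
  have hcov : f '' CC f k = ⋃ R : ℕ, f '' (CC f k ∩ Metric.closedBall 0 R) := by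
    rw [← image_iUnion, ← inter_iUnion]
    have : ⋃ R : ℕ, Metric.closedBall (0 : E) R = univ := by
      rw [eq_univ_iff_forall]
      intro x
      obtain ⟨R, hR⟩ := exists_nat_ge ‖x‖
      exact mem_iUnion.2 ⟨R, by simpa using hR⟩
    rw [this, inter_univ]
  rw [hcov, measure_iUnion_null_iff]
  intro R
  -- bound for the derivative
  have hcomp : IsCompact (Metric.closedBall (0 : E) R) := isCompact_closedBall _ _
  have hcont : Continuous (fun x => ‖iteratedFDeriv ℝ (k + 1) f x‖) := by
    apply Continuous.norm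
    exact hf.continuous_iteratedFDeriv (by exact_mod_cast le_top)
  obtain ⟨M, hM⟩ := hcomp.bddAbove_image hcont.continuousOn
  have hM' : ∀ z ∈ Metric.closedBall (0 : E) R, ‖iteratedFDeriv ℝ (k + 1) f z‖ ≤ max M 0 := by
    intro z hz
    exact (hM (mem_image_of_mem _ hz)).trans (le_max_left _ _)
  have hhol : HolderOnWith (Real.toNNReal (max M 0)) ((k + 1 : ℕ) : ℝ≥0) f
      (CC f k ∩ Metric.closedBall 0 R) := by
    intro x hx y hy
    have h1 := taylor_bound k f hf (Metric.closedBall (0 : E) R) (convex_closedBall _ _)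
      (max M 0) (le_max_right _ _) hM' x hx.2 hx.1 y hy.2
    have h2 : nndist (f x) (f y) ≤ Real.toNNReal (max M 0) * nndist x y ^ (k + 1) := by
      rw [← NNReal.coe_le_coe]
      push_cast
      rw [Real.coe_toNNReal _ (le_max_right _ _), dist_comm, dist_eq_norm, dist_comm x y,
        dist_eq_norm]
      exact h1
    have h3 : edist (f x) (f y) ≤ (Real.toNNReal (max M 0) : ℝ≥0∞) * edist x y ^ (k + 1) := by
      rw [edist_nndist, edist_nndist]
      exact_mod_cast ENNReal.coe_le_coe.2 h2
    rw [NNReal.coe_natCast, ENNReal.rpow_natCast]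
    exact h3
  have h4 := hhol.hausdorffMeasure_image_le (by exact_mod_cast Nat.succ_pos k) (d := 1) zero_le_one
  have h5 : (μH[(((k + 1 : ℕ) : ℝ≥0) : ℝ) * 1] : Measure E) = 0 := by
    apply Real.hausdorffMeasure_of_finrank_lt
    push_cast
    rw [mul_one]
    exact_mod_cast hk
  rw [h5, hausdorffMeasure_real] at h4
  simpa using h4

lemma layer_null {E : Type} [NormedAddCommGroup E] [NormedSpace ℝ E] [FiniteDimensional ℝ E]
    (N : ℕ) (hN : finrank ℝ E = N + 1)
    (IH : ∀ (K : Type) [NormedAddCommGroup K] [NormedSpace ℝ K] [FiniteDimensional ℝ K]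
      (g : K → ℝ), ContDiff ℝ ∞ g → finrank ℝ K = N →
        volume (g '' {x | fderiv ℝ g x = 0}) = 0)
    (f : E → ℝ) (hf : ContDiff ℝ ∞ f) (k : ℕ) (hk : 1 ≤ k) :
    volume (f '' (CC f k \ CC f (k + 1))) = 0 := by
  have hloc : ∀ x ∈ CC f k \ CC f (k + 1), ∃ U ∈ 𝓝 x,
      volume (f '' (U ∩ (CC f k \ CC f (k + 1)))) = 0 := by
    intro x hx
    have h1 : iteratedFDeriv ℝ (k + 1) f x ≠ 0 := by
      intro h0
      apply hx.2
      intro j hj1 hj2
      rcases Nat.lt_or_ge j (k + 1) with h | h
      · exact hx.1 j hj1 (by omega)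
      · have : j = k + 1 := le_antisymm hj2 h
        rw [this]; exact h0
    have h2 : fderiv ℝ (iteratedFDeriv ℝ k f) x ≠ 0 := by
      intro h0
      apply h1
      rw [← norm_eq_zero, ← norm_fderiv_iteratedFDeriv, h0]
      exact norm_zero (E := E →L[ℝ] (E [×k]→L[ℝ] ℝ))
    obtain ⟨u, hu⟩ : ∃ u, fderiv ℝ (iteratedFDeriv ℝ k f) x u ≠ 0 := by
      by_contra hcon
      push Not at hcon
      exact h2 (ContinuousLinearMap.ext hcon)
    obtain ⟨m, hm⟩ : ∃ m, fderiv ℝ (iteratedFDeriv ℝ k f) x u m ≠ 0 := by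
      by_contra hcon
      push Not at hcon
      exact hu (ContinuousMultilinearMap.ext hcon)
    set A := ContinuousMultilinearMap.apply ℝ (fun _ : Fin k => E) ℝ m with hA
    have hgs : ContDiff ℝ ∞ (iteratedFDeriv ℝ k f) := by
      apply hf.iteratedFDeriv_right (m := ∞)
      exact_mod_cast le_top
    have hws : ContDiff ℝ ∞ (fun y => A (iteratedFDeriv ℝ k f y)) := A.contDiff.comp hgs
    have hfd : fderiv ℝ (fun y => A (iteratedFDeriv ℝ k f y)) x ≠ 0 := by
      intro h0
      have h3 : HasFDerivAt (fun y => A (iteratedFDeriv ℝ k f y))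
          (A ∘L (fderiv ℝ (iteratedFDeriv ℝ k f) x)) x :=
        A.hasFDerivAt.comp x ((hgs.differentiable (by simp)) x).hasFDerivAt
      rw [h3.fderiv] at h0
      have := congrArg (fun L : E →L[ℝ] ℝ => L u) h0
      exact hm this
    have hzero : ∀ y ∈ CC f k, A (iteratedFDeriv ℝ k f y) = 0 := by
      intro y hy
      rw [hy k hk le_rfl, map_zero]
    have hfzero : ∀ y ∈ CC f k, fderiv ℝ f y = 0 := by
      intro y hy
      have := hy 1 le_rfl hk
      rw [← norm_eq_zero, norm_iteratedFDeriv_one] at this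
      exact norm_eq_zero.1 this
    obtain ⟨U, hU, hUn⟩ := local_step N hN IH f _ hf hws x (hzero x hx.1) hfd
    refine ⟨U, hU, measure_mono_null (image_mono ?_) hUn⟩
    rintro y ⟨hyU, hyS⟩
    exact ⟨hyU, hzero y hyS.1, hfzero y hyS.1⟩
  choose! U hU hUn using hloc
  obtain ⟨t, htS, htc, hcov⟩ := TopologicalSpace.countable_cover_nhdsWithin
    (s := CC f k \ CC f (k + 1)) (f := U) (fun x hx => mem_nhdsWithin_of_mem_nhds (hU x hx))
  have : f '' (CC f k \ CC f (k + 1)) ⊆ ⋃ x ∈ t, f '' (U x ∩ (CC f k \ CC f (k + 1))) := by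
    rintro _ ⟨y, hy, rfl⟩
    obtain ⟨x, hxt, hyx⟩ := mem_iUnion₂.1 (hcov hy)
    exact mem_iUnion₂.2 ⟨x, hxt, y, ⟨hyx, hy⟩, rfl⟩
  refine measure_mono_null this ?_
  rw [measure_biUnion_null_iff htc]
  intro x hx
  exact hUn x (htS hx)

lemma morse_sard_aux (N : ℕ) : ∀ (E : Type) [NormedAddCommGroup E] [NormedSpace ℝ E]
    [FiniteDimensional ℝ E] (f : E → ℝ), ContDiff ℝ ∞ f → finrank ℝ E = N →
      volume (f '' {x | fderiv ℝ f x = 0}) = 0 := by
  induction N with
  | zero =>
    intro E _ _ _ f hf hE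
    refine measure_mono_null (image_mono ?_) (flat_null f hf 0 (by omega))
    intro x _ j hj1 hj2
    omega
  | succ N ih =>
    intro E _ _ _ f hf hE
    have hsub : {x | fderiv ℝ f x = 0} ⊆ CC f (N + 1) ∪ ⋃ k : ℕ, ⋃ (_ : 1 ≤ k),
        (CC f k \ CC f (k + 1)) := by
      intro x hx
      by_cases h : x ∈ CC f (N + 1)
      · exact Or.inl h
      · right
        have h1 : x ∈ CC f 1 := by
          intro j hj1 hj2
          have : j = 1 := le_antisymm hj2 hj1
          rw [this, ← norm_eq_zero, norm_iteratedFDeriv_one, norm_eq_zero]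
          exact hx
        classical
        have hex : ∃ k, x ∉ CC f k := ⟨_, h⟩
        have hf1 : Nat.find hex ≠ 0 := by
          intro h0
          have := Nat.find_spec hex
          rw [h0] at this
          exact this (fun j hj1 hj2 => by omega)
        have hf2 : Nat.find hex ≠ 1 := by
          intro h0
          have := Nat.find_spec hex
          rw [h0] at this
          exact this h1
        refine mem_iUnion₂.2 ⟨Nat.find hex - 1, by omega, ?_, ?_⟩
        · have := Nat.find_min hex (m := Nat.find hex - 1) (by omega)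
          exact not_not.1 this
        · have := Nat.find_spec hex
          have he : Nat.find hex - 1 + 1 = Nat.find hex := by omega
          rw [he]
          exact this
    refine measure_mono_null (image_mono hsub) ?_
    rw [image_union, measure_union_null_iff]
    refine ⟨flat_null f hf (N + 1) (by omega), ?_⟩
    rw [image_iUnion, measure_iUnion_null_iff]
    intro k
    rw [image_iUnion, measure_iUnion_null_iff]
    intro hk
    exact layer_null N hE (fun K _ _ _ g hg hgK => ih K g hg hgK) f hf k hk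

/-- **Morse-Sard** for real valued functions: the critical values of a `C^∞` function on a
finite-dimensional space form a null set. -/
theorem morse_sard {E : Type} [NormedAddCommGroup E] [NormedSpace ℝ E] [FiniteDimensional ℝ E]
    (f : E → ℝ) (hf : ContDiff ℝ ∞ f) : volume (f '' {x | fderiv ℝ f x = 0}) = 0 :=
  morse_sard_aux _ E f hf rfl

end Pool.Agent.Helper1.Sard
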