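import Mathlib
import Pool.Agent.Helper1.Sard.MorseSard

set_option autoImplicit false

open Set MeasureTheory Filter Topology Module
open scoped ContDiff NNReal ENNReal

namespace Pool.Agent.Helper1.Sard

/-- A ball of a finite-dimensional space is covered by `K ^ dim` sets of diameter `≤ C / K`. -/
lemma cover_ball (X : Type) [NormedAddCommGroup X] [NormedSpace ℝ X] [FiniteDimensional ℝ X]
    (R : ℝ) (hR : 0 ≤ R) :
    ∃ C : ℝ, 0 ≤ C ∧ ∀ K : ℕ, 1 ≤ K → ∃ U : (Fin (finrank ℝ X) → Fin K) → Set X,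
      (∀ x : X, ‖x‖ ≤ R → ∃ i, x ∈ U i) ∧ ∀ i, ∀ x ∈ U i, ∀ y ∈ U i, ‖x - y‖ ≤ C / K := by
  set e : X ≃L[ℝ] (Fin (finrank ℝ X) → ℝ) :=
    ContinuousLinearEquiv.ofFinrankEq (by simp) with he
  set c1 := ‖(e : X →L[ℝ] (Fin (finrank ℝ X) → ℝ))‖ with hc1
  set c2 := ‖(e.symm : (Fin (finrank ℝ X) → ℝ) →L[ℝ] X)‖ with hc2
  have hc1n : 0 ≤ c1 := norm_nonneg _
  have hc2n : 0 ≤ c2 := norm_nonneg _
  set R' := c1 * R with hR'
  have hR'n : 0 ≤ R' := mul_nonneg hc1n hR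
  refine ⟨c2 * (2 * R' + 1), by positivity, ?_⟩
  intro K hK
  have hKpos : (0 : ℝ) < K := by exact_mod_cast hK
  refine ⟨fun i => {x | ∀ a, ⌊(e x a + R') * K / (2 * R' + 1)⌋ = (i a : ℤ)}, ?_, ?_⟩
  · intro x hx
    have hb : ∀ a, |e x a| ≤ R' := by
      intro a
      have h1 : ‖e x‖ ≤ c1 * ‖x‖ := (e : X →L[ℝ] (Fin (finrank ℝ X) → ℝ)).le_opNorm x
      have h2 : ‖e x a‖ ≤ ‖e x‖ := norm_le_pi_norm _ _
      rw [Real.norm_eq_abs] at h2
      have h3 : c1 * ‖x‖ ≤ R' := mul_le_mul_of_nonneg_left hx hc1n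
      linarith
    have hlo : ∀ a, 0 ≤ (e x a + R') * K / (2 * R' + 1) := by
      intro a
      have := abs_le.1 (hb a)
      apply div_nonneg _ (by positivity)
      apply mul_nonneg _ hKpos.le
      linarith
    have hhi : ∀ a, (e x a + R') * K / (2 * R' + 1) < K := by
      intro a
      have := abs_le.1 (hb a)
      rw [div_lt_iff₀ (by positivity)]
      nlinarith
    refine ⟨fun a => ⟨⌊(e x a + R') * K / (2 * R' + 1)⌋.toNat, ?_⟩, ?_⟩
    · rw [Int.toNat_lt_of_ne_zero (by omega)]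
      rw [Int.floor_lt]
      exact_mod_cast hhi a
    · intro a
      simp only
      rw [Int.toNat_of_nonneg]
      exact Int.floor_nonneg.2 (hlo a)
  · intro i x hx y hy
    have h1 : ‖e x - e y‖ ≤ (2 * R' + 1) / K := by
      rw [pi_norm_le_iff_of_nonneg (by positivity)]
      intro a
      rw [Pi.sub_apply, Real.norm_eq_abs]
      have h2 : ⌊(e x a + R') * K / (2 * R' + 1)⌋ = ⌊(e y a + R') * K / (2 * R' + 1)⌋ := by
        rw [hx a, hy a]
      have h3 := Int.abs_sub_lt_one_of_floor_eq_floor h2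
      have h4 : (e x a + R') * K / (2 * R' + 1) - (e y a + R') * K / (2 * R' + 1)
          = (e x a - e y a) * (K / (2 * R' + 1)) := by ring
      rw [h4, abs_mul, abs_of_pos (a := (K : ℝ) / (2 * R' + 1)) (by positivity)] at h3
      rw [le_div_iff₀ hKpos]
      rw [mul_div_assoc'] at h3
      rw [div_lt_one (by positivity)] at h3
      exact h3.le
    have h2 : x - y = e.symm (e x - e y) := by
      rw [map_sub, e.symm_apply_apply, e.symm_apply_apply]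
    calc ‖x - y‖ = ‖e.symm (e x - e y)‖ := by rw [← h2]
      _ ≤ c2 * ‖e x - e y‖ := (e.symm : (Fin (finrank ℝ X) → ℝ) →L[ℝ] X).le_opNorm _
      _ ≤ c2 * ((2 * R' + 1) / K) := mul_le_mul_of_nonneg_left h1 hc2n
      _ = c2 * (2 * R' + 1) / K := by ring

section par

variable {X Y Z : Type} [NormedAddCommGroup X] [NormedSpace ℝ X]
  [NormedAddCommGroup Y] [NormedSpace ℝ Y]
  [NormedAddCommGroup Z] [NormedSpace ℝ Z]

lemma partial_iter (g : X × Y → Z) (hg : ContDiff ℝ ∞ g) (j : ℕ) (x : X) (y : Y) :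
    iteratedFDeriv ℝ j (fun y' => g (x, y')) y =
      (iteratedFDeriv ℝ j g (x, y)).compContinuousLinearMap
        (fun _ => ContinuousLinearMap.inr ℝ X Y) := by
  have h1 : (fun y' => g (x, y')) =
      (fun z => g ((x, 0) + z)) ∘ (ContinuousLinearMap.inr ℝ X Y) := by
    ext y'
    simp
  have h2 : ContDiff ℝ ∞ (fun z : X × Y => g ((x, 0) + z)) :=
    hg.comp (contDiff_const.add contDiff_id)
  rw [h1, (ContinuousLinearMap.inr ℝ X Y).iteratedFDeriv_comp_right h2 y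
    (by exact_mod_cast le_top), iteratedFDeriv_comp_add_left]
  simp

lemma norm_partial_iter_le (g : X × Y → Z) (hg : ContDiff ℝ ∞ g) (j : ℕ) (x : X) (y : Y) :
    ‖iteratedFDeriv ℝ j (fun y' => g (x, y')) y‖ ≤ ‖iteratedFDeriv ℝ j g (x, y)‖ := by
  rw [partial_iter g hg]
  refine (ContinuousMultilinearMap.norm_compContinuousLinearMap_le _ _).trans ?_
  have h1 : ‖ContinuousLinearMap.inr ℝ X Y‖ ≤ 1 := ContinuousLinearMap.norm_inr_le_one ℝ X Y
  calc ‖iteratedFDeriv ℝ j g (x, y)‖ * ∏ _i : Fin j, ‖ContinuousLinearMap.inr ℝ X Y‖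
      ≤ ‖iteratedFDeriv ℝ j g (x, y)‖ * 1 := by
        apply mul_le_mul_of_nonneg_left _ (norm_nonneg _)
        exact Finset.prod_le_one (fun _ _ => norm_nonneg _) (fun _ _ => h1)
    _ = ‖iteratedFDeriv ℝ j g (x, y)‖ := mul_one _

/-- the graph-like map `(x, y) ↦ (x, g (x, y))` -/
def gr (g : X × Y → Z) : X × Y → X × Z := fun p => (p.1, g p)

/-- points at which the partial derivatives in the second variable of orders `1, …, k`
vanish -/
def CP (g : X × Y → Z) (k : ℕ) : Set (X × Y) :=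
  {p | ∀ j, 1 ≤ j → j ≤ k → iteratedFDeriv ℝ j (fun y => g (p.1, y)) p.2 = 0}

/-- the anisotropic estimate at flat points -/
lemma flat_est [FiniteDimensional ℝ X] [FiniteDimensional ℝ Y]
    (g : X × Y → Z) (hg : ContDiff ℝ ∞ g) (k : ℕ) (R : ℝ) :
    ∃ M : ℝ, 0 ≤ M ∧ ∀ p ∈ CP g k, ∀ q : X × Y, ‖p‖ ≤ R → ‖q‖ ≤ R →
      ‖g q - g p‖ ≤ M * (‖q.1 - p.1‖ + ‖q.2 - p.2‖ ^ (k + 1)) := by
  have hcomp : IsCompact (Metric.closedBall (0 : X × Y) R) := isCompact_closedBall _ _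
  have hcont : Continuous (fun x => ‖iteratedFDeriv ℝ (k + 1) g x‖) := by
    apply Continuous.norm
    exact hg.continuous_iteratedFDeriv (by exact_mod_cast le_top)
  have hcont1 : Continuous (fun x => ‖fderiv ℝ g x‖) :=
    (hg.continuous_fderiv (by simp)).norm
  obtain ⟨M1, hM1⟩ := hcomp.bddAbove_image hcont.continuousOn
  obtain ⟨M2, hM2⟩ := hcomp.bddAbove_image hcont1.continuousOn
  set M := max (max M1 M2) 0 with hM
  have hM1' : ∀ z ∈ Metric.closedBall (0 : X × Y) R, ‖iteratedFDeriv ℝ (k + 1) g z‖ ≤ M := by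
    intro z hz
    exact (hM1 (mem_image_of_mem _ hz)).trans ((le_max_left _ _).trans (le_max_left _ _))
  have hM2' : ∀ z ∈ Metric.closedBall (0 : X × Y) R, ‖fderiv ℝ g z‖ ≤ M := by
    intro z hz
    exact (hM2 (mem_image_of_mem _ hz)).trans ((le_max_right _ _).trans (le_max_left _ _))
  refine ⟨M, le_max_right _ _, ?_⟩
  intro p hp q hpR hqR
  have hp1 : ‖p.1‖ ≤ R := (norm_fst_le p).trans hpR
  have hp2 : ‖p.2‖ ≤ R := (norm_snd_le p).trans hpR
  have hq1 : ‖q.1‖ ≤ R := (norm_fst_le q).trans hqR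
  have hq2 : ‖q.2‖ ≤ R := (norm_snd_le q).trans hqR
  have h1 : ‖g (p.1, q.2) - g (p.1, p.2)‖ ≤ M * ‖q.2 - p.2‖ ^ (k + 1) := by
    apply taylor_bound k (fun y => g (p.1, y)) (hg.comp (contDiff_const.prodMk contDiff_id))
      (Metric.closedBall (0 : Y) R) (convex_closedBall _ _) M (le_max_right _ _) _ p.2
      (by simpa using hp2) hp q.2 (by simpa using hq2)
    intro z hz
    refine (norm_partial_iter_le g hg (k + 1) p.1 z).trans (hM1' _ ?_)
    rw [mem_closedBall_zero_iff] at hz ⊢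
    exact norm_prod_le_iff.2 ⟨hp1, hz⟩
  have h2 : ‖g (q.1, q.2) - g (p.1, q.2)‖ ≤ M * ‖(q.1, q.2) - (p.1, q.2)‖ := by
    apply (convex_closedBall (0 : X × Y) R).norm_image_sub_le_of_norm_fderiv_le (𝕜 := ℝ) (f := g)
    · intro z _; exact (hg.differentiable (by simp)) z
    · exact hM2'
    · rw [mem_closedBall_zero_iff]; exact norm_prod_le_iff.2 ⟨hp1, hq2⟩
    · rw [mem_closedBall_zero_iff]; exact norm_prod_le_iff.2 ⟨hq1, hq2⟩
  have h3 : ‖((q.1, q.2) : X × Y) - (p.1, q.2)‖ = ‖q.1 - p.1‖ := by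
    simp [Prod.norm_def]
  rw [h3] at h2
  calc ‖g q - g p‖ = ‖(g (q.1, q.2) - g (p.1, q.2)) + (g (p.1, q.2) - g (p.1, p.2))‖ := by
        congr 1; simp
    _ ≤ ‖g (q.1, q.2) - g (p.1, q.2)‖ + ‖g (p.1, q.2) - g (p.1, p.2)‖ := norm_add_le _ _
    _ ≤ M * ‖q.1 - p.1‖ + M * ‖q.2 - p.2‖ ^ (k + 1) := add_le_add h2 h1
    _ = M * (‖q.1 - p.1‖ + ‖q.2 - p.2‖ ^ (k + 1)) := by ring

lemma flat_dim_ball [FiniteDimensional ℝ X] [FiniteDimensional ℝ Y]
    (g : X × Y → Z) (hg : ContDiff ℝ ∞ g) (k : ℕ) (R : ℝ) (hR : 0 ≤ R) :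
    dimH (gr g '' (CP g k ∩ Metric.closedBall 0 R)) ≤
      (((finrank ℝ X : ℝ≥0) + (finrank ℝ Y : ℝ≥0) / ((k : ℝ≥0) + 1) : ℝ≥0) : ℝ≥0∞) := by
  borelize (X × Z)
  set r := finrank ℝ X with hr
  set N := finrank ℝ Y with hN
  set d : ℝ≥0 := (r : ℝ≥0) + (N : ℝ≥0) / ((k : ℝ≥0) + 1) with hd
  obtain ⟨M, hM0, hM⟩ := flat_est g hg k R
  obtain ⟨C1, hC1, hcov1⟩ := cover_ball X R hR
  obtain ⟨C2, hC2, hcov2⟩ := cover_ball Y R hR
  set C := C1 + M * (C1 + C2 ^ (k + 1)) with hC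
  have hC0 : 0 ≤ C := by positivity
  apply dimH_le_of_hausdorffMeasure_ne_top
  have hcov1' : ∀ b : ℕ, ∃ U : (Fin r → Fin ((b + 1) ^ (k + 1))) → Set X,
      (∀ x : X, ‖x‖ ≤ R → ∃ i, x ∈ U i) ∧
        ∀ i, ∀ x ∈ U i, ∀ y ∈ U i, ‖x - y‖ ≤ C1 / (((b + 1) ^ (k + 1) : ℕ) : ℝ) := by
    intro b
    exact hcov1 ((b + 1) ^ (k + 1)) (Nat.one_le_pow _ _ (by omega))
  have hcov2' : ∀ b : ℕ, ∃ U : (Fin N → Fin (b + 1)) → Set Y,
      (∀ x : Y, ‖x‖ ≤ R → ∃ i, x ∈ U i) ∧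
        ∀ i, ∀ x ∈ U i, ∀ y ∈ U i, ‖x - y‖ ≤ C2 / ((b + 1 : ℕ) : ℝ) := by
    intro b
    exact hcov2 (b + 1) (by omega)
  choose U hU1 hU2 using hcov1'
  choose V hV1 hV2 using hcov2'
  set s := gr g '' (CP g k ∩ Metric.closedBall 0 R) with hs
  set t : ∀ b : ℕ, ((Fin r → Fin ((b + 1) ^ (k + 1))) × (Fin N → Fin (b + 1))) → Set (X × Z) :=
    fun b ij => gr g '' (CP g k ∩ Metric.closedBall 0 R ∩ (U b ij.1 ×ˢ V b ij.2)) with ht
  have hdiam : ∀ b ij, Metric.ediam (t b ij) ≤ ENNReal.ofReal (C / ((b : ℝ) + 1) ^ (k + 1)) := by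
    intro b ij
    apply Metric.ediam_le
    rintro _ ⟨p, ⟨⟨hp, hpR⟩, hpU, hpV⟩, rfl⟩ _ ⟨q, ⟨⟨hq, hqR⟩, hqU, hqV⟩, rfl⟩
    rw [edist_dist]
    apply ENNReal.ofReal_le_ofReal
    have hpR' : ‖p‖ ≤ R := by simpa using hpR
    have hqR' : ‖q‖ ≤ R := by simpa using hqR
    have e1 := hU2 b ij.1 _ hqU _ hpU
    have e2 := hV2 b ij.2 _ hqV _ hpV
    push_cast at e1 e2
    have hb : (0 : ℝ) < ((b : ℝ) + 1) ^ (k + 1) := by positivity
    have e3 : ‖q.2 - p.2‖ ^ (k + 1) ≤ C2 ^ (k + 1) / ((b : ℝ) + 1) ^ (k + 1) := by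
      rw [← div_pow]
      exact pow_le_pow_left₀ (norm_nonneg _) e2 _
    have e4 : ‖g q - g p‖ ≤ M * ((C1 + C2 ^ (k + 1)) / ((b : ℝ) + 1) ^ (k + 1)) := by
      refine (hM p hp q hpR' hqR').trans ?_
      apply mul_le_mul_of_nonneg_left _ hM0
      rw [add_div]
      exact add_le_add e1 e3
    rw [dist_eq_norm, ← norm_neg, neg_sub]
    change ‖((q.1, g q) : X × Z) - (p.1, g p)‖ ≤ _
    rw [Prod.mk_sub_mk, norm_prod_le_iff]
    constructor
    · refine e1.trans ?_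
      apply div_le_div_of_nonneg_right _ hb.le
      rw [hC]
      have : 0 ≤ M * (C1 + C2 ^ (k + 1)) := by positivity
      linarith
    · refine e4.trans ?_
      rw [mul_div_assoc']
      apply div_le_div_of_nonneg_right _ hb.le
      rw [hC]
      linarith
  have htend : Tendsto (fun b : ℕ => ENNReal.ofReal (C / ((b : ℝ) + 1) ^ (k + 1))) atTop (𝓝 0) := by
    have h1 : Tendsto (fun b : ℕ => C / ((b : ℝ) + 1) ^ (k + 1)) atTop (𝓝 0) := by
      apply Tendsto.const_div_atTop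
      apply (tendsto_pow_atTop (by omega)).comp
      exact tendsto_atTop_add_const_right _ _ tendsto_natCast_atTop_atTop
    have h2 := (ENNReal.continuous_ofReal.tendsto 0).comp h1
    rw [ENNReal.ofReal_zero] at h2
    exact h2
  have hcov : ∀ b, s ⊆ ⋃ ij, t b ij := by
    intro b
    rintro _ ⟨p, ⟨hp, hpR⟩, rfl⟩
    have hpR' : ‖p‖ ≤ R := by simpa using hpR
    obtain ⟨i, hi⟩ := hU1 b p.1 ((norm_fst_le p).trans hpR')
    obtain ⟨j, hj⟩ := hV1 b p.2 ((norm_snd_le p).trans hpR')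
    exact mem_iUnion.2 ⟨(i, j), p, ⟨⟨hp, hpR⟩, hi, hj⟩, rfl⟩
  have hle := Measure.hausdorffMeasure_le_liminf_sum (d : ℝ) s _ htend t
    (Eventually.of_forall fun b => hdiam b) (Eventually.of_forall hcov)
  have hsum : ∀ b : ℕ, ∑ ij, Metric.ediam (t b ij) ^ (d : ℝ) ≤ ENNReal.ofReal (C ^ (d : ℝ)) := by
    intro b
    set B : ℝ := (b : ℝ) + 1 with hB
    have hBpos : 0 < B := by positivity
    have hd' : (d : ℝ) = (r : ℝ) + (N : ℝ) / ((k : ℝ) + 1) := by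
      rw [hd]; push_cast; rfl
    have e1 : (B ^ (k + 1)) ^ (d : ℝ) = (B ^ (k + 1)) ^ r * B ^ N := by
      rw [hd', Real.rpow_add (by positivity), Real.rpow_natCast]
      congr 1
      rw [← Real.rpow_natCast B (k + 1), ← Real.rpow_mul hBpos.le]
      have : ((k + 1 : ℕ) : ℝ) * ((N : ℝ) / ((k : ℝ) + 1)) = N := by
        push_cast
        field_simp
      rw [this, Real.rpow_natCast]
    have e2 : ((B ^ (k + 1)) ^ r * B ^ N) * (C / B ^ (k + 1)) ^ (d : ℝ) = C ^ (d : ℝ) := by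
      rw [Real.div_rpow hC0 (by positivity), ← e1]
      field_simp
    have hterm : ∀ ij, Metric.ediam (t b ij) ^ (d : ℝ) ≤
        ENNReal.ofReal ((C / B ^ (k + 1)) ^ (d : ℝ)) := by
      intro ij
      rw [← ENNReal.ofReal_rpow_of_nonneg (by positivity) d.coe_nonneg]
      exact ENNReal.rpow_le_rpow (hdiam b ij) d.coe_nonneg
    refine (Finset.sum_le_card_nsmul _ _ _ (fun ij _ => hterm ij)).trans ?_
    rw [nsmul_eq_mul, ← e2, ENNReal.ofReal_mul (by positivity)]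
    apply mul_le_mul_left
    rw [Finset.card_univ, Fintype.card_prod, Fintype.card_fun, Fintype.card_fun]
    simp only [Fintype.card_fin]
    apply le_of_eq
    rw [← ENNReal.ofReal_natCast]
    congr 1
    push_cast
    rfl
  have hlim : liminf (fun b : ℕ => ∑ ij, Metric.ediam (t b ij) ^ (d : ℝ)) atTop ≤
      ENNReal.ofReal (C ^ (d : ℝ)) := by
    refine (liminf_le_liminf (Eventually.of_forall hsum)).trans ?_
    simp
  exact ne_top_of_le_ne_top ENNReal.ofReal_ne_top (hle.trans hlim)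

end par

end Pool.Agent.Helper1.Sard
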