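import Mathlib
import Pool.Agent.Helper1.Sard.Flat

set_option autoImplicit false

open Set MeasureTheory Filter Topology Module
open scoped ContDiff NNReal ENNReal

namespace Pool.Agent.Helper1.Sard

section par

variable {X Y Z : Type} [NormedAddCommGroup X] [NormedSpace ℝ X] [FiniteDimensional ℝ X]
  [NormedAddCommGroup Y] [NormedSpace ℝ Y] [FiniteDimensional ℝ Y]
  [NormedAddCommGroup Z] [NormedSpace ℝ Z]

lemma flat_dim (g : X × Y → Z) (hg : ContDiff ℝ ∞ g) :
    dimH (gr g '' (⋂ k, CP g k)) ≤ finrank ℝ X := by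
  have hcov : gr g '' (⋂ k, CP g k) =
      ⋃ R : ℕ, gr g '' ((⋂ k, CP g k) ∩ Metric.closedBall 0 R) := by
    rw [← image_iUnion, ← inter_iUnion]
    have : ⋃ R : ℕ, Metric.closedBall (0 : X × Y) R = univ := by
      rw [eq_univ_iff_forall]
      intro x
      obtain ⟨R, hR⟩ := exists_nat_ge ‖x‖
      exact mem_iUnion.2 ⟨R, by simpa using hR⟩
    rw [this, inter_univ]
  rw [hcov, dimH_iUnion]
  apply iSup_le
  intro R
  have h1 : ∀ k : ℕ, dimH (gr g '' ((⋂ k, CP g k) ∩ Metric.closedBall 0 R)) ≤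
      (((finrank ℝ X : ℝ≥0) + (finrank ℝ Y : ℝ≥0) / ((k : ℝ≥0) + 1) : ℝ≥0) : ℝ≥0∞) := by
    intro k
    refine (dimH_mono (image_mono ?_)).trans (flat_dim_ball g hg k R (by positivity))
    exact inter_subset_inter_left _ (iInter_subset _ k)
  have h2 : Tendsto (fun k : ℕ => (((finrank ℝ X : ℝ≥0) +
      (finrank ℝ Y : ℝ≥0) / ((k : ℝ≥0) + 1) : ℝ≥0) : ℝ≥0∞)) atTop
      (𝓝 (((finrank ℝ X : ℝ≥0) + 0 : ℝ≥0) : ℝ≥0∞)) := by
    apply ENNReal.tendsto_coe.2
    apply Tendsto.add tendsto_const_nhds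
    apply NNReal.tendsto_coe.1
    push_cast
    apply Tendsto.const_div_atTop
    exact tendsto_atTop_add_const_right _ _ tendsto_natCast_atTop_atTop
  have h3 := ge_of_tendsto' h2 h1
  simpa using h3

/-- the set of points where the partial derivative in the second variable vanishes -/
def Crit (g : X × Y → Z) : Set (X × Y) := {p | fderiv ℝ (fun y => g (p.1, y)) p.2 = 0}

end par

/-- One step of the induction, near a point where `w` has nonzero derivative in the second
variable. -/
lemma local_step_par {X Y Z : Type} [NormedAddCommGroup X] [NormedSpace ℝ X]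
    [FiniteDimensional ℝ X]
    [NormedAddCommGroup Y] [NormedSpace ℝ Y] [FiniteDimensional ℝ Y]
    [NormedAddCommGroup Z] [NormedSpace ℝ Z]
    (N : ℕ) (hN : finrank ℝ Y = N + 1)
    (IH : ∀ (K : Type) [NormedAddCommGroup K] [NormedSpace ℝ K] [FiniteDimensional ℝ K]
      (g : X × K → Z), ContDiff ℝ ∞ g → finrank ℝ K = N →
        dimH (gr g '' {p | fderiv ℝ (fun y => g (p.1, y)) p.2 = 0}) ≤ finrank ℝ X)
    (g : X × Y → Z) (w : X × Y → ℝ) (hg : ContDiff ℝ ∞ g) (hw : ContDiff ℝ ∞ w) (p0 : X × Y)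
    (hp0 : w p0 = 0) (u0 : Y) (hd : fderiv ℝ w p0 (0, u0) ≠ 0) :
    ∃ U ∈ 𝓝 p0, dimH (gr g '' (U ∩ {p | w p = 0 ∧ fderiv ℝ (fun y => g (p.1, y)) p.2 = 0})) ≤
      finrank ℝ X := by
  have : CompleteSpace X := FiniteDimensional.complete ℝ X
  have : CompleteSpace Y := FiniteDimensional.complete ℝ Y
  obtain ⟨x0, y0⟩ := p0
  set L : X × Y →L[ℝ] ℝ := fderiv ℝ w (x0, y0) with hL
  set l : Y →L[ℝ] ℝ := L ∘L (ContinuousLinearMap.inr ℝ X Y) with hl
  have hlu0 : l u0 ≠ 0 := by simpa [hl] using hd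
  set u : Y := (l u0)⁻¹ • u0 with hu
  have hlu : l u = 1 := by
    rw [hu, map_smul, smul_eq_mul, inv_mul_cancel₀ hlu0]
  have hLsplit : ∀ v : X × Y, L v = L (v.1, 0) + l v.2 := by
    intro v
    have : v = (v.1, 0) + (0, v.2) := by simp
    conv_lhs => rw [this]
    rw [map_add]
    rfl
  set Φ : X × Y → X × Y := fun p => (p.1, p.2 + (w p - l (p.2 - y0)) • u) with hΦd
  have hΦ : ContDiff ℝ ∞ Φ := by
    apply contDiff_fst.prodMk
    apply contDiff_snd.add
    apply ContDiff.smul _ contDiff_const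
    apply hw.sub
    exact l.contDiff.comp (contDiff_snd.sub contDiff_const)
  -- the derivative at the base point
  set m : X →L[ℝ] Y := (L ∘L (ContinuousLinearMap.inl ℝ X Y)).smulRight u with hm
  have hm' : ∀ x, m x = L (x, 0) • u := by intro x; simp [hm]
  set e0 : (X × Y) ≃L[ℝ] (X × Y) := ContinuousLinearEquiv.equivOfInverse
    ((ContinuousLinearMap.fst ℝ X Y).prod
      (ContinuousLinearMap.snd ℝ X Y + m ∘L ContinuousLinearMap.fst ℝ X Y))
    ((ContinuousLinearMap.fst ℝ X Y).prod
      (ContinuousLinearMap.snd ℝ X Y - m ∘L ContinuousLinearMap.fst ℝ X Y))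
    (by intro p; ext <;> simp) (by intro p; ext <;> simp) with he0
  have hΦ' : HasFDerivAt Φ (e0 : X × Y →L[ℝ] X × Y) (x0, y0) := by
    have h1 : HasFDerivAt w L (x0, y0) := ((hw.differentiable (by simp)) (x0, y0)).hasFDerivAt
    have h2 : HasFDerivAt (fun p : X × Y => l (p.2 - y0))
        (l ∘L ContinuousLinearMap.snd ℝ X Y) (x0, y0) :=
      l.hasFDerivAt.comp (x0, y0) (hasFDerivAt_snd.sub_const y0)
    have h3 : HasFDerivAt Φ ((ContinuousLinearMap.fst ℝ X Y).prod
        (ContinuousLinearMap.snd ℝ X Y + (L - l ∘L ContinuousLinearMap.snd ℝ X Y).smulRight u))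
        (x0, y0) :=
      hasFDerivAt_fst.prodMk (hasFDerivAt_snd.add ((h1.sub h2).smul_const u))
    refine h3.congr_fderiv ?_
    apply ContinuousLinearMap.ext
    intro v
    have h4 := hLsplit v
    apply Prod.ext
    · simp [he0]
    · simp only [he0, ContinuousLinearMap.prod_apply, add_apply,
        ContinuousLinearMap.smulRight_apply, sub_apply,
        ContinuousLinearMap.comp_apply, ContinuousLinearMap.coe_snd', ContinuousLinearMap.coe_fst',
        ContinuousLinearEquiv.coe_coe, ContinuousLinearEquiv.equivOfInverse_apply, hm', h4,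
        add_sub_cancel_right]
  obtain ⟨e, hes, heΦ, hesymm, -⟩ := chart Φ hΦ (x0, y0) _ hΦ'
  have hΦx0 : Φ (x0, y0) = (x0, y0) := by simp [hΦd, hp0]
  have ht0 : (x0, y0) ∈ e.target := by
    have := e.map_source hes
    rwa [heΦ, hΦx0] at this
  -- first coordinates are preserved
  have hfst : ∀ q ∈ e.target, (e.symm q).1 = q.1 := by
    intro q hq
    have h1 := e.right_inv hq
    rw [heΦ] at h1
    have := congrArg Prod.fst h1
    exact this
  -- a ball inside the target
  obtain ⟨R, hR, hRt⟩ := Metric.isOpen_iff.1 e.open_target (x0, y0) ht0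
  set b : ContDiffBump (x0, y0) := ⟨R / 4, R / 2, by linarith, by linarith⟩ with hb
  have hsupp : tsupport b ⊆ e.target := by
    rw [b.tsupport_eq]
    refine subset_trans ?_ hRt
    apply Metric.closedBall_subset_ball
    change R / 2 < R
    linarith
  set K : Submodule ℝ Y := LinearMap.ker (l : Y →ₗ[ℝ] ℝ) with hK
  have hKrank : finrank ℝ K = N := by
    have h0 : (l : Y →ₗ[ℝ] ℝ) ≠ 0 := by
      intro h0
      apply hlu0
      have := congrArg (fun g : Y →ₗ[ℝ] ℝ => g u0) h0
      simpa using this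
    have h1 : finrank ℝ K + 1 = finrank ℝ Y :=
      Module.Dual.finrank_ker_add_one_of_ne_zero (f := (l : Y →ₗ[ℝ] ℝ)) h0
    omega
  set ι : X × K → X × Y := fun z => (z.1, y0 + (z.2 : Y)) with hιd
  have hι : ContDiff ℝ ∞ ι :=
    contDiff_fst.prodMk (contDiff_const.add (K.subtypeL.contDiff.comp contDiff_snd))
  set g' : X × K → Z := fun z => b (ι z) • g (e.symm (ι z)) with hg'
  have hgs : ContDiff ℝ ∞ g' := by
    rw [contDiff_iff_contDiffAt]
    intro z
    by_cases hz : ι z ∈ e.target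
    · apply ContDiffAt.smul
      · exact (b.contDiff.contDiffAt).comp z hι.contDiffAt
      · apply ContDiffAt.comp z _ _
        · exact hg.contDiffAt
        · exact (hesymm _ hz).comp z hι.contDiffAt
    · have hz' : ι z ∉ tsupport b := fun h => hz (hsupp h)
      have hopen : (tsupport b)ᶜ ∈ 𝓝 (ι z) :=
        (isClosed_tsupport _).isOpen_compl.mem_nhds hz'
      have hev : g' =ᶠ[𝓝 z] fun _ => 0 := by
        filter_upwards [hι.continuous.continuousAt.preimage_mem_nhds hopen] with y hy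
        have : b (ι y) = 0 := image_eq_zero_of_notMem_tsupport hy
        simp [hg', this]
      exact contDiffAt_const.congr_of_eventuallyEq hev
  have hdim := IH K g' hgs hKrank
  -- the neighbourhood
  have hUn : e.source ∩ Φ ⁻¹' (Metric.ball (x0, y0) (R / 4)) ∈ 𝓝 (x0, y0) := by
    apply inter_mem (e.open_source.mem_nhds hes)
    apply hΦ.continuous.continuousAt.preimage_mem_nhds
    rw [hΦx0]
    exact Metric.ball_mem_nhds _ (by linarith)
  refine ⟨_, hUn, (dimH_mono ?_).trans hdim⟩
  rintro _ ⟨p, ⟨⟨hxs, hxb⟩, hwx, hfx⟩, rfl⟩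
  have hlx : l ((Φ p).2 - y0) = 0 := by
    simp only [hΦd, hwx, zero_sub]
    have : p.2 + -l (p.2 - y0) • u - y0 = (p.2 - y0) - l (p.2 - y0) • u := by
      rw [neg_smul]; abel
    rw [this, map_sub, map_smul, hlu]
    simp
  have hxx : e.symm (Φ p) = p := by
    rw [← heΦ]
    exact e.left_inv hxs
  set z : K := ⟨(Φ p).2 - y0, by simpa [hK] using hlx⟩ with hz
  have hιz : ι (p.1, z) = Φ p := by
    apply Prod.ext
    · rfl
    · change y0 + ((Φ p).2 - y0) = (Φ p).2
      abel
  have hbz : b (ι (p.1, z)) = 1 := by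
    rw [hιz]
    exact b.one_of_mem_closedBall (Metric.ball_subset_closedBall hxb)
  have htz : ι (p.1, z) ∈ e.target := by
    rw [hιz, ← heΦ]
    exact e.map_source hxs
  refine ⟨(p.1, z), ?_, ?_⟩
  · rw [Set.mem_ofPred_eq]
    have hι1 : ContDiff ℝ ∞ (fun z' : K => ι (p.1, z')) :=
      hι.comp (contDiff_const.prodMk contDiff_id)
    have hball : Metric.ball (x0, y0) (R / 4) ∈ 𝓝 (ι (p.1, z)) := by
      rw [hιz]
      exact Metric.isOpen_ball.mem_nhds hxb
    have hev : (fun z' : K => g' (p.1, z')) =ᶠ[𝓝 z]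
        fun z' => g (p.1, (e.symm (ι (p.1, z'))).2) := by
      filter_upwards [hι1.continuous.continuousAt.preimage_mem_nhds hball,
        hι1.continuous.continuousAt.preimage_mem_nhds (e.open_target.mem_nhds htz)] with y hy hy2
      have h1 : b (ι (p.1, y)) = 1 := b.one_of_mem_closedBall (Metric.ball_subset_closedBall hy)
      have h2 : e.symm (ι (p.1, y)) = (p.1, (e.symm (ι (p.1, y))).2) :=
        Prod.ext (hfst _ hy2) rfl
      simp only [hg', h1, one_smul]
      rw [← h2]
    have hd1 : DifferentiableAt ℝ (fun z' : K => (e.symm (ι (p.1, z'))).2) z :=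
      (contDiff_snd.contDiffAt.comp z ((hesymm _ htz).comp z hι1.contDiffAt)).differentiableAt
        (by simp)
    have hd2 : HasFDerivAt (fun y => g (p.1, y)) (0 : Y →L[ℝ] Z)
        ((e.symm (ι (p.1, z))).2) := by
      rw [hιz, hxx]
      have h3 : fderiv ℝ (fun y => g (p.1, y)) p.2 = 0 := hfx
      rw [← h3]
      apply DifferentiableAt.hasFDerivAt
      exact ((hg.comp (contDiff_const.prodMk contDiff_id)).differentiable (by simp)) p.2
    have hd3 := hd2.comp z hd1.hasFDerivAt
    change fderiv ℝ (fun z' : K => g' (p.1, z')) z = 0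
    rw [hev.fderiv_eq]
    have := hd3.fderiv
    rw [ContinuousLinearMap.zero_comp] at this
    exact this
  · change ((p.1, b (ι (p.1, z)) • g (e.symm (ι (p.1, z)))) : X × Z) = (p.1, g p)
    rw [hbz, hιz, hxx, one_smul]

lemma layer_par {X Y Z : Type} [NormedAddCommGroup X] [NormedSpace ℝ X]
    [FiniteDimensional ℝ X]
    [NormedAddCommGroup Y] [NormedSpace ℝ Y] [FiniteDimensional ℝ Y]
    [NormedAddCommGroup Z] [NormedSpace ℝ Z]
    (N : ℕ) (hN : finrank ℝ Y = N + 1)
    (IH : ∀ (K : Type) [NormedAddCommGroup K] [NormedSpace ℝ K] [FiniteDimensional ℝ K]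
      (g : X × K → Z), ContDiff ℝ ∞ g → finrank ℝ K = N →
        dimH (gr g '' {p | fderiv ℝ (fun y => g (p.1, y)) p.2 = 0}) ≤ finrank ℝ X)
    (g : X × Y → Z) (hg : ContDiff ℝ ∞ g) (k : ℕ) (hk : 1 ≤ k) :
    dimH (gr g '' (CP g k \ CP g (k + 1))) ≤ finrank ℝ X := by
  have hloc : ∀ p ∈ CP g k \ CP g (k + 1), ∃ U ∈ 𝓝 p,
      dimH (gr g '' (U ∩ (CP g k \ CP g (k + 1)))) ≤ finrank ℝ X := by
    intro p hp
    have h1 : iteratedFDeriv ℝ (k + 1) (fun y => g (p.1, y)) p.2 ≠ 0 := by
      intro h0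
      apply hp.2
      intro j hj1 hj2
      rcases Nat.lt_or_ge j (k + 1) with h | h
      · exact hp.1 j hj1 (by omega)
      · have : j = k + 1 := le_antisymm hj2 h
        rw [this]; exact h0
    rw [partial_iter g hg] at h1
    obtain ⟨m, hm⟩ : ∃ m : Fin (k + 1) → Y, iteratedFDeriv ℝ (k + 1) g (p.1, p.2)
        (fun i => ContinuousLinearMap.inr ℝ X Y (m i)) ≠ 0 := by
      by_contra hcon
      push Not at hcon
      exact h1 (ContinuousMultilinearMap.ext hcon)
    obtain ⟨ζ, -, hζ⟩ := exists_dual_vector ℝ _ (norm_ne_zero_iff.2 hm)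
    set M : Fin (k + 1) → X × Y := fun i => ContinuousLinearMap.inr ℝ X Y (m i) with hM
    set A : (X × Y [×k]→L[ℝ] Z) →L[ℝ] ℝ :=
      ζ ∘L ContinuousMultilinearMap.apply ℝ (fun _ : Fin k => X × Y) Z (Fin.tail M) with hA
    have hgs : ContDiff ℝ ∞ (iteratedFDeriv ℝ k g) := by
      apply hg.iteratedFDeriv_right (m := ∞)
      exact_mod_cast le_top
    have hws : ContDiff ℝ ∞ (fun y => A (iteratedFDeriv ℝ k g y)) := A.contDiff.comp hgs
    have hfd : fderiv ℝ (fun y => A (iteratedFDeriv ℝ k g y)) p (0, m 0) ≠ 0 := by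
      have h3 : HasFDerivAt (fun y => A (iteratedFDeriv ℝ k g y))
          (A ∘L (fderiv ℝ (iteratedFDeriv ℝ k g) p)) p :=
        A.hasFDerivAt.comp p ((hgs.differentiable (by simp)) p).hasFDerivAt
      rw [h3.fderiv]
      have h4 : (A ∘L (fderiv ℝ (iteratedFDeriv ℝ k g) p)) (0, m 0) =
          ζ (iteratedFDeriv ℝ (k + 1) g p M) := by
        rw [iteratedFDeriv_succ_apply_left]
        rfl
      rw [h4]
      change ζ (iteratedFDeriv ℝ (k + 1) g (p.1, p.2) M) ≠ 0
      rw [hζ]
      exact_mod_cast norm_ne_zero_iff.2 hm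
    have hzero : ∀ q ∈ CP g k, A (iteratedFDeriv ℝ k g q) = 0 := by
      intro q hq
      have h5 := hq k hk le_rfl
      rw [partial_iter g hg] at h5
      have h6 := congrArg (fun T : Y [×k]→L[ℝ] Z => ζ (T (Fin.tail m))) h5
      have h7 : A (iteratedFDeriv ℝ k g q) =
          ζ (((iteratedFDeriv ℝ k g (q.1, q.2)).compContinuousLinearMap
            (fun _ => ContinuousLinearMap.inr ℝ X Y)) (Fin.tail m)) := rfl
      rw [h7]
      simpa using h6
    have hfzero : ∀ q ∈ CP g k, fderiv ℝ (fun y => g (q.1, y)) q.2 = 0 := by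
      intro q hq
      have := hq 1 le_rfl hk
      rw [← norm_eq_zero, norm_iteratedFDeriv_one] at this
      exact norm_eq_zero.1 this
    obtain ⟨U, hU, hUn⟩ := local_step_par N hN IH g _ hg hws p (hzero p hp.1) (m 0) hfd
    refine ⟨U, hU, (dimH_mono (image_mono ?_)).trans hUn⟩
    rintro q ⟨hqU, hqS⟩
    exact ⟨hqU, hzero q hqS.1, hfzero q hqS.1⟩
  choose! U hU hUn using hloc
  obtain ⟨t, htS, htc, hcov⟩ := TopologicalSpace.countable_cover_nhdsWithin
    (s := CP g k \ CP g (k + 1)) (f := U) (fun x hx => mem_nhdsWithin_of_mem_nhds (hU x hx))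
  have : gr g '' (CP g k \ CP g (k + 1)) ⊆
      ⋃ x ∈ t, gr g '' (U x ∩ (CP g k \ CP g (k + 1))) := by
    rintro _ ⟨y, hy, rfl⟩
    obtain ⟨x, hxt, hyx⟩ := mem_iUnion₂.1 (hcov hy)
    exact mem_iUnion₂.2 ⟨x, hxt, y, ⟨hyx, hy⟩, rfl⟩
  refine (dimH_mono this).trans ?_
  rw [dimH_bUnion htc]
  apply iSup₂_le
  intro x hx
  exact hUn x (htS hx)

lemma sard_par_aux {X Z : Type} [NormedAddCommGroup X] [NormedSpace ℝ X] [FiniteDimensional ℝ X]
    [NormedAddCommGroup Z] [NormedSpace ℝ Z] (N : ℕ) :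
    ∀ (Y : Type) [NormedAddCommGroup Y] [NormedSpace ℝ Y] [FiniteDimensional ℝ Y]
      (g : X × Y → Z), ContDiff ℝ ∞ g → finrank ℝ Y = N →
        dimH (gr g '' {p | fderiv ℝ (fun y => g (p.1, y)) p.2 = 0}) ≤ finrank ℝ X := by
  induction N with
  | zero =>
    intro Y _ _ _ g hg hY
    refine (dimH_mono (image_mono ?_)).trans (flat_dim g hg)
    intro p _
    rw [mem_iInter]
    intro k j hj1 hj2
    have hsub : Subsingleton Y := Module.finrank_zero_iff.1 hY
    apply ContinuousMultilinearMap.ext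
    intro m
    have : m = 0 := Subsingleton.elim _ _
    rw [this]
    exact ContinuousMultilinearMap.map_coord_zero _ (⟨0, hj1⟩ : Fin j) rfl
  | succ N ih =>
    intro Y _ _ _ g hg hY
    have hsub : {p : X × Y | fderiv ℝ (fun y => g (p.1, y)) p.2 = 0} ⊆
        (⋂ k, CP g k) ∪ ⋃ k : ℕ, ⋃ (_ : 1 ≤ k), (CP g k \ CP g (k + 1)) := by
      intro x hx
      by_cases h : x ∈ ⋂ k, CP g k
      · exact Or.inl h
      · right
        have h1 : x ∈ CP g 1 := by
          intro j hj1 hj2
          have : j = 1 := le_antisymm hj2 hj1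
          rw [this, ← norm_eq_zero, norm_iteratedFDeriv_one, norm_eq_zero]
          exact hx
        classical
        have hex : ∃ k, x ∉ CP g k := by
          by_contra hcon
          push Not at hcon
          exact h (mem_iInter.2 hcon)
        have hf1 : Nat.find hex ≠ 0 := by
          intro h0
          have := Nat.find_spec hex
          rw [h0] at this
          exact this (fun j hj1 hj2 => by omega)
        have hf2 : Nat.find hex ≠ 1 := by
          intro h0
          have := Nat.find_spec hex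
          rw [h0] at this
          exact this h1
        refine mem_iUnion₂.2 ⟨Nat.find hex - 1, by omega, ?_, ?_⟩
        · have := Nat.find_min hex (m := Nat.find hex - 1) (by omega)
          exact not_not.1 this
        · have := Nat.find_spec hex
          have he : Nat.find hex - 1 + 1 = Nat.find hex := by omega
          rw [he]
          exact this
    refine (dimH_mono (image_mono hsub)).trans ?_
    rw [image_union, dimH_union]
    apply max_le (flat_dim g hg)
    rw [image_iUnion, dimH_iUnion]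
    apply iSup_le
    intro k
    rw [image_iUnion, dimH_iUnion]
    apply iSup_le
    intro hk
    exact layer_par N hY (fun K _ _ _ g hg hgK => ih K g hg hgK) g hg k hk

/-- **Morse-Sard with parameters.** For a `C^∞` map `g : X × Y → Z` (`X`, `Y` finite-dimensional)
the set of all `(x, g (x, y))` such that the partial derivative in the second variable vanishes at
`(x, y)` has Hausdorff dimension at most `dim X`. -/
theorem sard_par {X Y Z : Type} [NormedAddCommGroup X] [NormedSpace ℝ X] [FiniteDimensional ℝ X]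
    [NormedAddCommGroup Y] [NormedSpace ℝ Y] [FiniteDimensional ℝ Y]
    [NormedAddCommGroup Z] [NormedSpace ℝ Z] (g : X × Y → Z) (hg : ContDiff ℝ ∞ g) :
    dimH ((fun p : X × Y => (p.1, g p)) '' {p | fderiv ℝ (fun y => g (p.1, y)) p.2 = 0}) ≤
      finrank ℝ X :=
  sard_par_aux _ Y g hg rfl

end Pool.Agent.Helper1.Sard
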