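import Mathlib
import Pool.Agent.Helper1.Sard.Flat

set_option autoImplicit false

open Set MeasureTheory Filter Topology Module
open scoped ContDiff NNReal ENNReal

namespace Pool.Agent.Helper1.Sard

/-- coverings of a set of small Hausdorff dimension, with positive radii -/
lemma cover_A {Q : Type} [NormedAddCommGroup Q] (A : Set Q) (α : ℝ≥0) (hα : dimH A < α)
    (ε : ℝ≥0) (hε : 0 < ε) :
    ∃ (t : ℕ → Set Q) (ρ : ℕ → ℝ), A ⊆ ⋃ i, t i ∧ (∀ i, 0 < ρ i) ∧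
      (∀ i, ∀ x ∈ t i, ∀ y ∈ t i, dist x y ≤ ρ i) ∧
      (∑' i, ENNReal.ofReal (ρ i ^ (α : ℝ))) ≤ ε := by
  borelize Q
  have hα0 : 0 < α := by
    have : (0 : ℝ≥0∞) < α := lt_of_le_of_lt bot_le hα
    exact_mod_cast this
  have hα0' : (0 : ℝ) < α := hα0
  have h0 : μH[(α : ℝ)] A = 0 := hausdorffMeasure_of_dimH_lt hα
  rw [Measure.hausdorffMeasure_apply] at h0
  have h1 : (⨅ (t : ℕ → Set Q) (_ : A ⊆ ⋃ n, t n) (_ : ∀ n, Metric.ediam (t n) ≤ 1),
      ∑' n, ⨆ _ : (t n).Nonempty, Metric.ediam (t n) ^ (α : ℝ)) = 0 := by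
    have := iSup₂_eq_bot.1 h0 1 one_pos
    exact this
  have hε2 : (0 : ℝ≥0∞) < (ε : ℝ≥0∞) / 2 :=
    ENNReal.div_pos (by exact_mod_cast hε.ne') (by simp)
  rw [← h1] at hε2
  obtain ⟨t, ht⟩ := iInf_lt_iff.1 hε2
  obtain ⟨hcov, ht⟩ := iInf_lt_iff.1 ht
  obtain ⟨hdiam, ht⟩ := iInf_lt_iff.1 ht
  rw [h1] at hε2
  obtain ⟨δ, hδ, hδs⟩ := ENNReal.exists_pos_sum_of_countable hε2.ne' ℕ
  have hdt : ∀ i, Metric.ediam (t i) ≠ ⊤ := fun i => ne_top_of_le_ne_top ENNReal.one_ne_top (hdiam i)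
  refine ⟨t, fun i => ((Metric.ediam (t i)).toReal ^ (α : ℝ) + δ i) ^ (1 / (α : ℝ)), hcov, ?_,
    ?_, ?_⟩
  · intro i
    apply Real.rpow_pos_of_pos
    have h2 : (0 : ℝ) < δ i := hδ i
    have h3 : 0 ≤ (Metric.ediam (t i)).toReal ^ (α : ℝ) :=
      Real.rpow_nonneg ENNReal.toReal_nonneg _
    linarith
  · intro i x hx y hy
    have h2 : dist x y ≤ (Metric.ediam (t i)).toReal := by
      rw [dist_edist]
      exact ENNReal.toReal_mono (hdt i) (Metric.edist_le_ediam_of_mem hx hy)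
    refine h2.trans ?_
    have h3 : (Metric.ediam (t i)).toReal =
        ((Metric.ediam (t i)).toReal ^ (α : ℝ)) ^ (1 / (α : ℝ)) := by
      rw [← Real.rpow_mul ENNReal.toReal_nonneg, mul_one_div_cancel hα0'.ne', Real.rpow_one]
    conv_lhs => rw [h3]
    apply Real.rpow_le_rpow (Real.rpow_nonneg ENNReal.toReal_nonneg _)
    · have h2 : (0 : ℝ) < δ i := hδ i
      linarith
    · positivity
  · have h4 : ∀ i, ENNReal.ofReal ((((Metric.ediam (t i)).toReal ^ (α : ℝ) + δ i) ^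
        (1 / (α : ℝ))) ^ (α : ℝ)) ≤
        (⨆ _ : (t i).Nonempty, Metric.ediam (t i) ^ (α : ℝ)) + δ i := by
      intro i
      have h3 : 0 ≤ (Metric.ediam (t i)).toReal ^ (α : ℝ) :=
        Real.rpow_nonneg ENNReal.toReal_nonneg _
      rw [← Real.rpow_mul (by positivity), one_div_mul_cancel hα0'.ne', Real.rpow_one,
        ENNReal.ofReal_add h3 (δ i).coe_nonneg, ENNReal.ofReal_coe_nnreal]
      apply add_le_add _ le_rfl
      rw [← ENNReal.ofReal_rpow_of_nonneg ENNReal.toReal_nonneg hα0'.le,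
        ENNReal.ofReal_toReal (hdt i)]
      rcases (t i).eq_empty_or_nonempty with h | h
      · rw [h]
        simp
        exact hα0
      · exact le_iSup_of_le h le_rfl
    refine (ENNReal.tsum_le_tsum h4).trans ?_
    rw [ENNReal.tsum_add]
    calc _ ≤ (ε : ℝ≥0∞) / 2 + ε / 2 := add_le_add ht.le hδs.le
      _ = ε := ENNReal.add_halves _

/-- choice of the subdivision parameter -/
lemma pick_K (k : ℕ) (ρ : ℝ) (h0 : 0 < ρ) (h1 : ρ ≤ 1) :
    ∃ K : ℕ, 1 ≤ K ∧ ρ ≤ 1 / (K : ℝ) ^ (k + 1) ∧ 1 / (K : ℝ) ^ (k + 1) ≤ 2 ^ (k + 1) * ρ := by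
  set z : ℝ := ρ ^ (-(1 / ((k : ℝ) + 1))) with hz
  have hk : (0 : ℝ) < (k : ℝ) + 1 := by positivity
  have hz1 : 1 ≤ z := Real.one_le_rpow_of_pos_of_le_one_of_nonpos h0 h1 (by
    rw [neg_nonpos]; positivity)
  have hz0 : 0 < z := by linarith
  have hzk : z ^ (k + 1) = ρ⁻¹ := by
    rw [hz, ← Real.rpow_natCast, ← Real.rpow_mul h0.le, ← Real.rpow_neg_one]
    congr 1
    push_cast
    field_simp
  refine ⟨⌊z⌋₊, ?_, ?_, ?_⟩
  · exact Nat.le_floor (by exact_mod_cast hz1)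
  · have hK : (⌊z⌋₊ : ℝ) ≤ z := Nat.floor_le hz0.le
    have hK1 : (1 : ℝ) ≤ (⌊z⌋₊ : ℝ) := by
      exact_mod_cast Nat.le_floor (by exact_mod_cast hz1 : ((1 : ℕ) : ℝ) ≤ z)
    rw [le_div_iff₀ (by positivity)]
    calc ρ * (⌊z⌋₊ : ℝ) ^ (k + 1) ≤ ρ * z ^ (k + 1) := by
          apply mul_le_mul_of_nonneg_left _ h0.le
          exact pow_le_pow_left₀ (by positivity) hK _
      _ = 1 := by rw [hzk, mul_inv_cancel₀ h0.ne']
  · have hK1 : (1 : ℝ) ≤ (⌊z⌋₊ : ℝ) := by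
      exact_mod_cast Nat.le_floor (by exact_mod_cast hz1 : ((1 : ℕ) : ℝ) ≤ z)
    have hK2 : z ≤ 2 * (⌊z⌋₊ : ℝ) := by
      have := (Nat.lt_floor_add_one z).le
      linarith
    rw [div_le_iff₀ (by positivity)]
    calc (1 : ℝ) = ρ * z ^ (k + 1) := by rw [hzk, mul_inv_cancel₀ h0.ne']
      _ ≤ ρ * (2 * (⌊z⌋₊ : ℝ)) ^ (k + 1) := by
          apply mul_le_mul_of_nonneg_left _ h0.le
          exact pow_le_pow_left₀ hz0.le hK2 _
      _ = 2 ^ (k + 1) * ρ * (⌊z⌋₊ : ℝ) ^ (k + 1) := by rw [mul_pow]; ring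

section flatA

variable {W Q Y Z : Type} [NormedAddCommGroup W] [NormedSpace ℝ W] [FiniteDimensional ℝ W]
  [NormedAddCommGroup Q] [NormedSpace ℝ Q] [FiniteDimensional ℝ Q]
  [NormedAddCommGroup Y] [NormedSpace ℝ Y] [FiniteDimensional ℝ Y]
  [NormedAddCommGroup Z] [NormedSpace ℝ Z]

lemma flat_A_ball (g : (W × Q) × Y → Z) (hg : ContDiff ℝ ∞ g) (A : Set Q) (α : ℝ≥0)
    (hα : dimH A < α) (k : ℕ) (R : ℝ) (hR : 0 ≤ R) :
    dimH (gr g '' ({p | p.1.2 ∈ A} ∩ CP g k ∩ Metric.closedBall 0 R)) ≤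
      (((finrank ℝ W : ℝ≥0) + (finrank ℝ Y : ℝ≥0) / ((k : ℝ≥0) + 1) + α : ℝ≥0) : ℝ≥0∞) := by
  borelize ((W × Q) × Z)
  have hα0 : 0 < α := by
    have : (0 : ℝ≥0∞) < α := lt_of_le_of_lt bot_le hα
    exact_mod_cast this
  have hα0' : (0 : ℝ) < α := hα0
  set w := finrank ℝ W with hw
  set N := finrank ℝ Y with hN
  set d : ℝ≥0 := (w : ℝ≥0) + (N : ℝ≥0) / ((k : ℝ≥0) + 1) + α with hd
  obtain ⟨M, hM0, hM⟩ := flat_est g hg k R
  obtain ⟨C1, hC1, hcov1⟩ := cover_ball W R hR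
  obtain ⟨C2, hC2, hcov2⟩ := cover_ball Y R hR
  set C := (C1 + 1) + M * ((C1 + 1) + C2 ^ (k + 1)) with hC
  have hC0 : 0 ≤ C := by positivity
  apply dimH_le_of_hausdorffMeasure_ne_top
  -- the coverings
  have hcovA := fun m : ℕ => cover_A A α hα (1 / ((m : ℝ≥0) + 1)) (by positivity)
  choose t ρ htA hρ0 htd hts using hcovA
  have hρ1 : ∀ m i, ρ m i ^ (α : ℝ) ≤ 1 / ((m : ℝ) + 1) := by
    intro m i
    have h1 := (ENNReal.le_tsum i).trans (hts m)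
    rw [ENNReal.ofReal_le_iff_le_toReal ENNReal.coe_ne_top, ENNReal.coe_toReal] at h1
    push_cast at h1
    exact h1
  have hρ2 : ∀ m i, ρ m i ≤ (1 / ((m : ℝ) + 1)) ^ (1 / (α : ℝ)) := by
    intro m i
    have h3 : ρ m i = (ρ m i ^ (α : ℝ)) ^ (1 / (α : ℝ)) := by
      rw [← Real.rpow_mul (hρ0 m i).le, mul_one_div_cancel hα0'.ne', Real.rpow_one]
    rw [h3]
    exact Real.rpow_le_rpow (Real.rpow_nonneg (hρ0 m i).le _) (hρ1 m i) (by positivity)
  have hρ3 : ∀ m i, ρ m i ≤ 1 := by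
    intro m i
    refine (hρ2 m i).trans ?_
    apply Real.rpow_le_one (by positivity) _ (by positivity)
    rw [div_le_one (by positivity)]
    linarith [(Nat.cast_nonneg m : (0 : ℝ) ≤ m)]
  have hKex := fun m i => pick_K k (ρ m i) (hρ0 m i) (hρ3 m i)
  choose K hK1 hK2 hK3 using hKex
  have hcov1' : ∀ m i, ∃ U : (Fin w → Fin (K m i ^ (k + 1))) → Set W,
      (∀ x : W, ‖x‖ ≤ R → ∃ i, x ∈ U i) ∧
        ∀ j, ∀ x ∈ U j, ∀ y ∈ U j, ‖x - y‖ ≤ C1 / ((K m i ^ (k + 1) : ℕ) : ℝ) := by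
    intro m i
    exact hcov1 (K m i ^ (k + 1)) (Nat.one_le_pow _ _ (hK1 m i))
  have hcov2' : ∀ m i, ∃ U : (Fin N → Fin (K m i)) → Set Y,
      (∀ x : Y, ‖x‖ ≤ R → ∃ i, x ∈ U i) ∧
        ∀ j, ∀ x ∈ U j, ∀ y ∈ U j, ‖x - y‖ ≤ C2 / ((K m i : ℕ) : ℝ) := by
    intro m i
    exact hcov2 (K m i) (hK1 m i)
  choose U hU1 hU2 using hcov1'
  choose V hV1 hV2 using hcov2'
  set s := gr g '' ({p | p.1.2 ∈ A} ∩ CP g k ∩ Metric.closedBall 0 R) with hs
  set ι : ℕ → Type := fun m => Σ i : ℕ, ((Fin w → Fin (K m i ^ (k + 1))) × (Fin N → Fin (K m i)))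
    with hι
  set T : ∀ m : ℕ, ι m → Set ((W × Q) × Z) := fun m z =>
    gr g '' ({p | p.1.2 ∈ A} ∩ CP g k ∩ Metric.closedBall 0 R ∩
      {p | p.1.1 ∈ U m z.1 z.2.1 ∧ p.1.2 ∈ t m z.1 ∧ p.2 ∈ V m z.1 z.2.2}) with hT
  have hdiam : ∀ m z, Metric.ediam (T m z) ≤
      ENNReal.ofReal (C / (K m z.1 : ℝ) ^ (k + 1)) := by
    intro m z
    apply Metric.ediam_le
    rintro _ ⟨p, ⟨⟨⟨hpA, hp⟩, hpR⟩, hpU, hpt, hpV⟩, rfl⟩ _ ⟨q, ⟨⟨⟨hqA, hq⟩, hqR⟩, hqU, hqt, hqV⟩, rfl⟩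
    rw [edist_dist]
    apply ENNReal.ofReal_le_ofReal
    have hpR' : ‖p‖ ≤ R := by simpa using hpR
    have hqR' : ‖q‖ ≤ R := by simpa using hqR
    have hKpos : (0 : ℝ) < (K m z.1 : ℝ) := by exact_mod_cast hK1 m z.1
    have hb : (0 : ℝ) < (K m z.1 : ℝ) ^ (k + 1) := by positivity
    have e1 := hU2 m z.1 z.2.1 _ hqU _ hpU
    have e2 := hV2 m z.1 z.2.2 _ hqV _ hpV
    push_cast at e1
    have e0 : ‖q.1.2 - p.1.2‖ ≤ 1 / (K m z.1 : ℝ) ^ (k + 1) := by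
      rw [← dist_eq_norm]
      exact (htd m z.1 _ hqt _ hpt).trans (hK2 m z.1)
    have e01 : ‖q.1 - p.1‖ ≤ (C1 + 1) / (K m z.1 : ℝ) ^ (k + 1) := by
      rw [norm_prod_le_iff]
      constructor
      · refine e1.trans ?_
        apply div_le_div_of_nonneg_right _ hb.le
        linarith
      · refine e0.trans ?_
        apply div_le_div_of_nonneg_right _ hb.le
        linarith
    have e3 : ‖q.2 - p.2‖ ^ (k + 1) ≤ C2 ^ (k + 1) / (K m z.1 : ℝ) ^ (k + 1) := by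
      rw [← div_pow]
      exact pow_le_pow_left₀ (norm_nonneg _) e2 _
    have e4 : ‖g q - g p‖ ≤ M * (((C1 + 1) + C2 ^ (k + 1)) / (K m z.1 : ℝ) ^ (k + 1)) := by
      refine (hM p hp q hpR' hqR').trans ?_
      apply mul_le_mul_of_nonneg_left _ hM0
      rw [add_div]
      exact add_le_add e01 e3
    rw [dist_eq_norm, ← norm_neg, neg_sub]
    change ‖((q.1, g q) : (W × Q) × Z) - (p.1, g p)‖ ≤ _
    rw [Prod.mk_sub_mk, norm_prod_le_iff]
    constructor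
    · refine e01.trans ?_
      apply div_le_div_of_nonneg_right _ hb.le
      rw [hC]
      have : 0 ≤ M * ((C1 + 1) + C2 ^ (k + 1)) := by positivity
      linarith
    · refine e4.trans ?_
      rw [mul_div_assoc']
      apply div_le_div_of_nonneg_right _ hb.le
      rw [hC]
      linarith
  have hdiam2 : ∀ m z, Metric.ediam (T m z) ≤
      ENNReal.ofReal (C * (2 ^ (k + 1) * (1 / ((m : ℝ) + 1)) ^ (1 / (α : ℝ)))) := by
    intro m z
    refine (hdiam m z).trans ?_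
    apply ENNReal.ofReal_le_ofReal
    rw [div_eq_mul_one_div]
    apply mul_le_mul_of_nonneg_left _ hC0
    refine (hK3 m z.1).trans ?_
    exact mul_le_mul_of_nonneg_left (hρ2 m z.1) (by positivity)
  have htend : Tendsto (fun m : ℕ =>
      ENNReal.ofReal (C * (2 ^ (k + 1) * (1 / ((m : ℝ) + 1)) ^ (1 / (α : ℝ))))) atTop (𝓝 0) := by
    have h1 : Tendsto (fun m : ℕ => (1 / ((m : ℝ) + 1)) ^ (1 / (α : ℝ))) atTop
        (𝓝 (0 ^ (1 / (α : ℝ)))) :=
      tendsto_one_div_add_atTop_nhds_zero_nat.rpow_const (Or.inr (by positivity))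
    rw [Real.zero_rpow (by positivity)] at h1
    have h2 := (h1.const_mul ((2 : ℝ) ^ (k + 1))).const_mul C
    rw [mul_zero, mul_zero] at h2
    have h3 := (ENNReal.continuous_ofReal.tendsto 0).comp h2
    rw [ENNReal.ofReal_zero] at h3
    exact h3
  have hcov : ∀ m, s ⊆ ⋃ z, T m z := by
    intro m
    rintro _ ⟨p, ⟨⟨hpA, hp⟩, hpR⟩, rfl⟩
    have hpR' : ‖p‖ ≤ R := by simpa using hpR
    obtain ⟨i, hi⟩ := mem_iUnion.1 (htA m hpA)
    obtain ⟨j, hj⟩ := hU1 m i p.1.1 ((norm_fst_le _).trans ((norm_fst_le p).trans hpR'))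
    obtain ⟨l, hl⟩ := hV1 m i p.2 ((norm_snd_le p).trans hpR')
    exact mem_iUnion.2 ⟨⟨i, (j, l)⟩, p, ⟨⟨⟨hpA, hp⟩, hpR⟩, hj, hi, hl⟩, rfl⟩
  have hle := Measure.hausdorffMeasure_le_liminf_tsum (d : ℝ) s _ htend T
    (Eventually.of_forall fun m => hdiam2 m) (Eventually.of_forall hcov)
  set B : ℝ := C ^ (d : ℝ) * ((2 : ℝ) ^ (k + 1)) ^ (α : ℝ) with hB
  have hsum : ∀ m : ℕ, ∑' z, Metric.ediam (T m z) ^ (d : ℝ) ≤ ENNReal.ofReal B := by
    intro m
    have hd' : (d : ℝ) = (w : ℝ) + (N : ℝ) / ((k : ℝ) + 1) + α := by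
      rw [hd]; push_cast; rfl
    have hrow : ∀ i, ∑' z : (Fin w → Fin (K m i ^ (k + 1))) × (Fin N → Fin (K m i)),
        Metric.ediam (T m ⟨i, z⟩) ^ (d : ℝ) ≤
          ENNReal.ofReal B * ENNReal.ofReal (ρ m i ^ (α : ℝ)) := by
      intro i
      have hKpos : (0 : ℝ) < (K m i : ℝ) := by exact_mod_cast hK1 m i
      set L : ℝ := (K m i : ℝ) with hL
      have e1 : (L ^ (k + 1)) ^ (d : ℝ) = (L ^ (k + 1)) ^ w * L ^ N * (L ^ (k + 1)) ^ (α : ℝ) := by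
        rw [hd', Real.rpow_add (by positivity), Real.rpow_add (by positivity), Real.rpow_natCast]
        congr 2
        rw [← Real.rpow_natCast L (k + 1), ← Real.rpow_mul hKpos.le]
        have : ((k + 1 : ℕ) : ℝ) * ((N : ℝ) / ((k : ℝ) + 1)) = N := by
          push_cast
          field_simp
        rw [this, Real.rpow_natCast]
      have e2 : ((L ^ (k + 1)) ^ w * L ^ N) * (C / L ^ (k + 1)) ^ (d : ℝ) =
          C ^ (d : ℝ) * (1 / L ^ (k + 1)) ^ (α : ℝ) := by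
        rw [Real.div_rpow hC0 (by positivity), Real.div_rpow zero_le_one (by positivity),
          Real.one_rpow, e1]
        field_simp
      have e3 : C ^ (d : ℝ) * (1 / L ^ (k + 1)) ^ (α : ℝ) ≤ B * ρ m i ^ (α : ℝ) := by
        rw [hB, mul_assoc]
        apply mul_le_mul_of_nonneg_left _ (by positivity)
        rw [← Real.mul_rpow (by positivity) (hρ0 m i).le]
        exact Real.rpow_le_rpow (by positivity) (hK3 m i) hα0'.le
      have hterm : ∀ z, Metric.ediam (T m ⟨i, z⟩) ^ (d : ℝ) ≤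
          ENNReal.ofReal ((C / L ^ (k + 1)) ^ (d : ℝ)) := by
        intro z
        rw [← ENNReal.ofReal_rpow_of_nonneg (by positivity) d.coe_nonneg]
        exact ENNReal.rpow_le_rpow (hdiam m ⟨i, z⟩) d.coe_nonneg
      rw [tsum_fintype, ← ENNReal.ofReal_mul (by positivity)]
      refine (Finset.sum_le_card_nsmul _ _ _ (fun z _ => hterm z)).trans ?_
      refine le_trans ?_ (ENNReal.ofReal_le_ofReal e3)
      rw [nsmul_eq_mul, ← e2, ENNReal.ofReal_mul (by positivity)]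
      apply mul_le_mul_left
      rw [Finset.card_univ, Fintype.card_prod, Fintype.card_fun, Fintype.card_fun]
      simp only [Fintype.card_fin]
      apply le_of_eq
      rw [← ENNReal.ofReal_natCast]
      congr 1
      push_cast
      rfl
    refine (ENNReal.tsum_sigma' (fun z : (Σ i : ℕ, ((Fin w → Fin (K m i ^ (k + 1))) ×
      (Fin N → Fin (K m i)))) => Metric.ediam (T m z) ^ (d : ℝ))).trans_le ?_
    refine (ENNReal.tsum_le_tsum hrow).trans ?_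
    rw [ENNReal.tsum_mul_left]
    calc ENNReal.ofReal B * ∑' i, ENNReal.ofReal (ρ m i ^ (α : ℝ))
        ≤ ENNReal.ofReal B * 1 := by
          apply mul_le_mul_right
          refine (hts m).trans ?_
          rw [← ENNReal.coe_one]
          apply ENNReal.coe_le_coe.2
          rw [div_le_one (by positivity)]
          exact le_add_of_nonneg_left (by positivity)
      _ = ENNReal.ofReal B := mul_one _
  have hlim : liminf (fun m : ℕ => ∑' z, Metric.ediam (T m z) ^ (d : ℝ)) atTop ≤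
      ENNReal.ofReal B := by
    refine (liminf_le_liminf (Eventually.of_forall hsum)).trans ?_
    simp
  exact ne_top_of_le_ne_top ENNReal.ofReal_ne_top (hle.trans hlim)

end flatA

end Pool.Agent.Helper1.Sard
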