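import Mathlib

set_option autoImplicit false

open Set MeasureTheory Filter Topology Module
open scoped ContDiff NNReal ENNReal

namespace Pool.Agent.Helper1.Sard

/-- Integration over slices: lower bound for the Hausdorff measure of `B × A`. -/
lemma hm_prod {W Q : Type} [NormedAddCommGroup W] [NormedSpace ℝ W] [FiniteDimensional ℝ W]
    [MeasurableSpace W] [BorelSpace W] (μ : Measure W) [μ.IsAddHaarMeasure]
    [EMetricSpace Q] [MeasurableSpace Q] [BorelSpace Q]
    [MeasurableSpace (W × Q)] [BorelSpace (W × Q)] (B : Set W) (A : Set Q) (α : ℝ) (hα : 0 ≤ α) :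
    (μH[α] : Measure Q) A * μ B ≤
      μ (Metric.ball 0 1) * (μH[(finrank ℝ W : ℝ) + α] : Measure (W × Q)) (B ×ˢ A) := by
  set w := finrank ℝ W with hw
  conv_lhs => rw [Measure.hausdorffMeasure_apply]
  rw [ENNReal.iSup_mul]
  apply iSup_le
  intro r
  rw [ENNReal.iSup_mul]
  apply iSup_le
  intro hr
  set r' : ℝ≥0∞ := min r 1 with hr'
  have hr'0 : 0 < r' := lt_min hr one_pos
  have hr'1 : r' ≤ 1 := min_le_right _ _
  -- it suffices to consider a covering
  suffices hcov : ∀ t : ℕ → Set (W × Q), B ×ˢ A ⊆ ⋃ m, t m → (∀ m, Metric.ediam (t m) ≤ r') →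
      (⨅ (t : ℕ → Set Q) (_ : A ⊆ ⋃ n, t n) (_ : ∀ n, Metric.ediam (t n) ≤ r),
        ∑' n, ⨆ _ : (t n).Nonempty, Metric.ediam (t n) ^ α) * μ B ≤
      μ (Metric.ball 0 1) * ∑' m, ⨆ _ : (t m).Nonempty, Metric.ediam (t m) ^ ((w : ℝ) + α) by
    have hball : μ (Metric.ball (0 : W) 1) ≠ ⊤ := measure_ball_lt_top.ne
    have hball0 : μ (Metric.ball (0 : W) 1) ≠ 0 := (Metric.measure_ball_pos μ 0 one_pos).ne'
    rw [Measure.hausdorffMeasure_apply]
    have h1 : μ (Metric.ball (0 : W) 1) * (⨅ (t : ℕ → Set (W × Q)) (_ : B ×ˢ A ⊆ ⋃ n, t n)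
        (_ : ∀ n, Metric.ediam (t n) ≤ r'),
          ∑' n, ⨆ _ : (t n).Nonempty, Metric.ediam (t n) ^ ((w : ℝ) + α)) ≤
        μ (Metric.ball (0 : W) 1) * (⨆ (r : ℝ≥0∞) (_ : 0 < r), ⨅ (t : ℕ → Set (W × Q))
          (_ : B ×ˢ A ⊆ ⋃ n, t n) (_ : ∀ n, Metric.ediam (t n) ≤ r),
          ∑' n, ⨆ _ : (t n).Nonempty, Metric.ediam (t n) ^ ((w : ℝ) + α)) := by
      apply mul_le_mul_right
      exact le_iSup₂_of_le r' hr'0 le_rfl
    refine le_trans ?_ h1
    rw [ENNReal.mul_iInf_of_ne hball0 hball]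
    apply le_iInf
    intro t
    rw [ENNReal.mul_iInf_of_ne hball0 hball]
    apply le_iInf
    intro ht1
    rw [ENNReal.mul_iInf_of_ne hball0 hball]
    apply le_iInf
    intro ht2
    exact hcov t ht1 ht2
  intro t ht1 ht2
  set H := (⨅ (t : ℕ → Set Q) (_ : A ⊆ ⋃ n, t n) (_ : ∀ n, Metric.ediam (t n) ≤ r),
        ∑' n, ⨆ _ : (t n).Nonempty, Metric.ediam (t n) ^ α) with hH
  classical
  set F : ℕ → Set W := fun m => if h : (t m).Nonempty then
    Metric.closedBall h.some.1 (Metric.ediam (t m)).toReal else ∅ with hF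
  have hFm : ∀ m, MeasurableSet (F m) := by
    intro m
    simp only [hF]
    split_ifs with h
    · exact measurableSet_closedBall
    · exact MeasurableSet.empty
  have hdt : ∀ m, Metric.ediam (t m) ≠ ⊤ := fun m =>
    ne_top_of_le_ne_top ENNReal.one_ne_top ((ht2 m).trans hr'1)
  have hmem : ∀ m, ∀ p ∈ t m, p.1 ∈ F m := by
    intro m p hp
    have hne : (t m).Nonempty := ⟨p, hp⟩
    simp only [hF, dif_pos hne]
    rw [Metric.mem_closedBall, dist_edist]
    apply ENNReal.toReal_mono (hdt m)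
    refine le_trans ?_ (Metric.edist_le_ediam_of_mem hp hne.some_mem)
    exact le_max_left _ _
  have hpt : ∀ x ∈ B, H ≤ ∑' m, (F m).indicator (fun _ => Metric.ediam (t m) ^ α) x := by
    intro x hx
    have h1 : H ≤ ∑' m, ⨆ _ : ({a | (x, a) ∈ t m} : Set Q).Nonempty,
        Metric.ediam {a | (x, a) ∈ t m} ^ α := by
      refine iInf_le_of_le (fun m => {a | (x, a) ∈ t m}) (iInf_le_of_le ?_ (iInf_le_of_le ?_ le_rfl))
      · intro a ha
        obtain ⟨m, hm⟩ := mem_iUnion.1 (ht1 (show (x, a) ∈ B ×ˢ A from ⟨hx, ha⟩))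
        exact mem_iUnion.2 ⟨m, hm⟩
      · intro m
        refine le_trans ?_ ((ht2 m).trans (min_le_left _ _))
        apply Metric.ediam_le
        intro a ha b hb
        refine le_trans ?_ (Metric.edist_le_ediam_of_mem ha hb)
        exact le_max_right _ _
    refine h1.trans (ENNReal.tsum_le_tsum fun m => ?_)
    apply iSup_le
    intro hne
    obtain ⟨a, ha⟩ := hne
    rw [indicator_of_mem (hmem m _ ha)]
    apply ENNReal.rpow_le_rpow _ hα
    apply Metric.ediam_le
    intro a ha b hb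
    refine le_trans ?_ (Metric.edist_le_ediam_of_mem ha hb)
    exact le_max_right _ _
  calc H * μ B = ∫⁻ _ in B, H ∂μ := by rw [setLIntegral_const]
    _ ≤ ∫⁻ x in B, ∑' m, (F m).indicator (fun _ => Metric.ediam (t m) ^ α) x ∂μ := by
        apply setLIntegral_mono
        · exact Measurable.tsum fun m => measurable_const.indicator (hFm m)
        · exact hpt
    _ ≤ ∫⁻ x, ∑' m, (F m).indicator (fun _ => Metric.ediam (t m) ^ α) x ∂μ :=
        setLIntegral_le_lintegral _ _
    _ = ∑' m, Metric.ediam (t m) ^ α * μ (F m) := by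
        rw [lintegral_tsum]
        · congr 1
          funext m
          rw [lintegral_indicator_const (hFm m)]
        · intro m
          exact (measurable_const.indicator (hFm m)).aemeasurable
    _ ≤ ∑' m, μ (Metric.ball 0 1) * ⨆ _ : (t m).Nonempty, Metric.ediam (t m) ^ ((w : ℝ) + α) := by
        apply ENNReal.tsum_le_tsum
        intro m
        by_cases h : (t m).Nonempty
        · simp only [hF, dif_pos h, ciSup_pos h]
          rw [Measure.addHaar_closedBall _ _ ENNReal.toReal_nonneg,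
            ENNReal.rpow_add_of_nonneg _ _ (by positivity) hα, ENNReal.rpow_natCast,
            ENNReal.ofReal_pow ENNReal.toReal_nonneg, ENNReal.ofReal_toReal (hdt m)]
          apply le_of_eq
          ring
        · simp [hF, dif_neg h]
    _ = μ (Metric.ball 0 1) * ∑' m, ⨆ _ : (t m).Nonempty, Metric.ediam (t m) ^ ((w : ℝ) + α) :=
        ENNReal.tsum_mul_left

/-- Lower bound for the Hausdorff dimension of a product with a ball. -/
lemma prod_lower (W : Type) [NormedAddCommGroup W] [NormedSpace ℝ W] [FiniteDimensional ℝ W]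
    {Q : Type} [MetricSpace Q] (r : ℝ) (hr : 0 < r) (A : Set Q) (hA : A.Nonempty) :
    (finrank ℝ W : ℝ≥0∞) + dimH A ≤ dimH ((Metric.ball (0 : W) r) ×ˢ A) := by
  borelize W Q (W × Q)
  have hW : (finrank ℝ W : ℝ≥0∞) ≤ dimH ((Metric.ball (0 : W) r) ×ˢ A) := by
    have h1 : dimH (Metric.ball (0 : W) r) = finrank ℝ W :=
      Real.dimH_of_mem_nhds (Metric.ball_mem_nhds _ hr)
    have h2 : (Prod.fst '' ((Metric.ball (0 : W) r) ×ˢ A)) = Metric.ball (0 : W) r :=
      fst_image_prod _ hA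
    rw [← h1]
    conv_lhs => rw [← h2]
    exact LipschitzWith.prod_fst.dimH_image_le _
  by_contra hcon
  push Not at hcon
  set D := dimH ((Metric.ball (0 : W) r) ×ˢ A) with hD
  have hDtop : D ≠ ⊤ := ne_top_of_lt hcon
  have h3 : D - finrank ℝ W < dimH A := by
    rw [ENNReal.sub_lt_iff_lt_left (ENNReal.natCast_ne_top _) hW]
    exact hcon
  obtain ⟨α, hα1, hα2⟩ := ENNReal.lt_iff_exists_nnreal_btwn.1 h3
  have h4 : (μH[(α : ℝ)] : Measure Q) A = ⊤ := hausdorffMeasure_of_lt_dimH hα2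
  have h5 := hm_prod (Measure.addHaar : Measure W) (Metric.ball (0 : W) r) A (α : ℝ) α.coe_nonneg
  have h6 : (Measure.addHaar : Measure W) (Metric.ball (0 : W) r) ≠ 0 :=
    (Metric.measure_ball_pos _ 0 hr).ne'
  rw [h4, ENNReal.top_mul h6, top_le_iff, ENNReal.mul_eq_top] at h5
  have h7 : (μH[(finrank ℝ W : ℝ) + α] : Measure (W × Q)) ((Metric.ball (0 : W) r) ×ˢ A) = ⊤ := by
    rcases h5 with h | h
    · exact h.2
    · exact absurd h.1 measure_ball_lt_top.ne
  have h8 : (((finrank ℝ W : ℝ≥0) + α : ℝ≥0) : ℝ≥0∞) ≤ D := by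
    apply le_dimH_of_hausdorffMeasure_eq_top
    push_cast
    exact h7
  have h9 : D < (finrank ℝ W : ℝ≥0∞) + α := by
    rw [← ENNReal.sub_lt_iff_lt_left (ENNReal.natCast_ne_top _) hW]
    exact hα1
  push_cast at h8
  exact absurd h8 (not_le.2 h9)

end Pool.Agent.Helper1.Sard
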